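import Pool.Agent.V5helper83.AR.Inv
import Pool.Agent.H738R3.CZ.Defs

/-! Arcs of real conics. -/

open Complex Set Filter Topology

namespace Pool.Agent.V5helper83.AR

open H738CZ

/-- coefficients of a real quadratic polynomial
`a x² + 2 b x y + c y² + 2 d x + 2 e y + f` -/
structure Cf where
  a : ℝ
  b : ℝ
  c : ℝ
  d : ℝ
  e : ℝ
  f : ℝ

namespace Cf

variable (q : Cf)

/-- half of the gradient -/
def G1 (x y : ℝ) : ℝ := q.a * x + q.b * y + q.d
def G2 (x y : ℝ) : ℝ := q.b * x + q.c * y + q.e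
def G3 (x y : ℝ) : ℝ := q.d * x + q.e * y + q.f

/-- the quadratic polynomial -/
def Q (x y : ℝ) : ℝ :=
  q.a * x ^ 2 + 2 * q.b * x * y + q.c * y ^ 2 + 2 * q.d * x + 2 * q.e * y + q.f

theorem Q_eq (x y : ℝ) : q.Q x y = x * q.G1 x y + y * q.G2 x y + q.G3 x y := by
  unfold Q G1 G2 G3
  ring

/-- the determinant -/
def Δ : ℝ := q.a * (q.c * q.f - q.e ^ 2) + q.b * (q.d * q.e - q.b * q.f) +
  q.d * (q.b * q.e - q.c * q.d)

/-- nonzero -/
def Nz : Prop := ¬ (q.a = 0 ∧ q.b = 0 ∧ q.c = 0 ∧ q.d = 0 ∧ q.e = 0 ∧ q.f = 0)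

end Cf

theorem zero_deriv {F F' : ℝ → ℝ} {t0 : ℝ} (h : ∀ᶠ s in 𝓝 t0, F s = 0)
    (hd : ∀ s, HasDerivAt F (F' s) s) : ∀ᶠ s in 𝓝 t0, F' s = 0 := by
  filter_upwards [h.eventually_nhds] with s hs
  have h1 : HasDerivAt F 0 s := (hasDerivAt_const s (0 : ℝ)).congr_of_eventuallyEq hs
  exact (hd s).unique h1

section oval
variable {γ : ℝ → ℂ} {ρ : ℝ → ℝ} (hOv : IsOval γ ρ)
include hOv

theorem der_re (s : ℝ) : HasDerivAt (fun s => (γ s).re) (-(ρ s * Real.sin s)) s := by
  have h1 := hOv.der s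
  have e : (ρ s : ℂ) * I * cexp (s * I) = ⟨-(ρ s * Real.sin s), ρ s * Real.cos s⟩ := by
    apply Complex.ext
    · simp [Complex.exp_ofReal_mul_I_re, Complex.exp_ofReal_mul_I_im]
    · simp [Complex.exp_ofReal_mul_I_re, Complex.exp_ofReal_mul_I_im]
  rw [e] at h1
  exact Complex.reCLM.hasFDerivAt.comp_hasDerivAt s h1

theorem der_im (s : ℝ) : HasDerivAt (fun s => (γ s).im) (ρ s * Real.cos s) s := by
  have h1 := hOv.der s
  have e : (ρ s : ℂ) * I * cexp (s * I) = ⟨-(ρ s * Real.sin s), ρ s * Real.cos s⟩ := by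
    apply Complex.ext
    · simp [Complex.exp_ofReal_mul_I_re, Complex.exp_ofReal_mul_I_im]
    · simp [Complex.exp_ofReal_mul_I_re, Complex.exp_ofReal_mul_I_im]
  rw [e] at h1
  exact Complex.imCLM.hasFDerivAt.comp_hasDerivAt s h1

omit hOv in
theorem sup_eq (z : ℂ) (φ : ℝ) : sup z φ = z.re * Real.cos φ + z.im * Real.sin φ := by
  unfold sup
  have h1 : cexp (-(φ * I)) = ⟨Real.cos φ, -Real.sin φ⟩ := by
    have h2 : cexp (-(φ * I)) = cexp (((-φ : ℝ) : ℂ) * I) := by push_cast; ring_nf
    rw [h2]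
    apply Complex.ext
    · rw [Complex.exp_ofReal_mul_I_re, Real.cos_neg]
    · rw [Complex.exp_ofReal_mul_I_im, Real.sin_neg]
  rw [h1, Complex.mul_re]
  ring

/-- the tangent line -/
theorem tangent (q : Cf) {t0 : ℝ} (h : ∀ᶠ s in 𝓝 t0, q.Q (γ s).re (γ s).im = 0) :
    ∀ᶠ s in 𝓝 t0, -(q.G1 (γ s).re (γ s).im * Real.sin s) + q.G2 (γ s).re (γ s).im * Real.cos s
      = 0 := by
  have h1 := zero_deriv (F := fun s => q.Q (γ s).re (γ s).im)
    (F' := fun s => 2 * ρ s * (-(q.G1 (γ s).re (γ s).im * Real.sin s) +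
      q.G2 (γ s).re (γ s).im * Real.cos s)) h (fun s => by
      have hx := der_re hOv s
      have hy := der_im hOv s
      have h1 := (((((hx.pow 2).const_mul q.a).add ((hx.mul hy).const_mul (2 * q.b))).add
        ((hy.pow 2).const_mul q.c)).add (hx.const_mul (2 * q.d))).add
        (hy.const_mul (2 * q.e)) |>.add_const q.f
      refine (h1.congr_of_eventuallyEq (Eventually.of_forall fun s => ?_)).congr_deriv ?_
      · unfold Cf.Q
        simp only [Pi.add_apply, Pi.mul_apply, Pi.pow_apply]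
        ring
      · unfold Cf.G1 Cf.G2
        ring)
  filter_upwards [h1] with s hs
  have h2 : ρ s ≠ 0 := (hOv.pos s).ne'
  have h3 : 2 * ρ s ≠ 0 := by positivity
  exact (mul_eq_zero.1 hs).resolve_left h3

omit hOv in
theorem trig_zero {a b t0 : ℝ} (h : ∀ᶠ s in 𝓝 t0, a * Real.cos s + b * Real.sin s = 0) :
    a = 0 ∧ b = 0 := by
  have h1 := zero_deriv (F' := fun s => a * (-Real.sin s) + b * Real.cos s) h
    (fun s => ((Real.hasDerivAt_cos s).const_mul a).add ((Real.hasDerivAt_sin s).const_mul b))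
  have e1 := h.self_of_nhds
  have e2 : a * (-Real.sin t0) + b * Real.cos t0 = 0 := h1.self_of_nhds
  have e3 := Real.sin_sq_add_cos_sq t0
  constructor
  · linear_combination (-a) * e3 + Real.cos t0 * e1 - Real.sin t0 * e2
  · linear_combination (-b) * e3 + Real.sin t0 * e1 + Real.cos t0 * e2

/-- the gradient does not vanish on an arc -/
theorem grad_ne (q : Cf) (hq : q.Nz) {t0 : ℝ} (h : ∀ᶠ s in 𝓝 t0, q.Q (γ s).re (γ s).im = 0)
    (h1 : ∀ᶠ s in 𝓝 t0, q.G1 (γ s).re (γ s).im = 0)
    (h2 : ∀ᶠ s in 𝓝 t0, q.G2 (γ s).re (γ s).im = 0) : False := by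
  have key : ∀ a b d : ℝ, (∀ᶠ s in 𝓝 t0, a * (γ s).re + b * (γ s).im + d = 0) →
      a = 0 ∧ b = 0 ∧ d = 0 := by
    intro a b d hh
    have h3 := zero_deriv (F' := fun s => a * (-(ρ s * Real.sin s)) + b * (ρ s * Real.cos s)) hh
      (fun s => (((der_re hOv s).const_mul a).add ((der_im hOv s).const_mul b)).add_const d)
    have h4 : ∀ᶠ s in 𝓝 t0, b * Real.cos s + (-a) * Real.sin s = 0 := by
      filter_upwards [h3] with s hs
      have h5 : ρ s ≠ 0 := (hOv.pos s).ne'
      have h6 : ρ s * (b * Real.cos s + (-a) * Real.sin s) = 0 := by linear_combination hs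
      exact (mul_eq_zero.1 h6).resolve_left h5
    obtain ⟨hb, ha⟩ := trig_zero h4
    have ha : a = 0 := by linarith
    have h5 := hh.self_of_nhds
    rw [ha, hb] at h5
    exact ⟨ha, hb, by linarith⟩
  obtain ⟨ha, hb, hd⟩ := key _ _ _ h1
  obtain ⟨-, hc, he⟩ := key _ _ _ h2
  have h3 := h.self_of_nhds
  unfold Cf.Q at h3
  rw [ha, hb, hc, hd, he] at h3
  exact hq ⟨ha, hb, hc, hd, he, by linarith⟩

/-- support function and its derivative -/
theorem der_sup (s : ℝ) : HasDerivAt (fun s => (γ s).re * Real.cos s + (γ s).im * Real.sin s)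
    (-((γ s).re * Real.sin s) + (γ s).im * Real.cos s) s := by
  have h1 := ((der_re hOv s).mul (Real.hasDerivAt_cos s)).add
    ((der_im hOv s).mul (Real.hasDerivAt_sin s))
  refine h1.congr_deriv ?_
  ring

/-- an arc of a degenerate conic is not curved -/
theorem det_ne (q : Cf) (hq : q.Nz) {t0 : ℝ} (h : ∀ᶠ s in 𝓝 t0, q.Q (γ s).re (γ s).im = 0) :
    q.Δ ≠ 0 := by
  intro hΔ
  have htan := tangent hOv q h
  by_cases hμ : ∀ᶠ s in 𝓝 t0, q.G1 (γ s).re (γ s).im * Real.cos s +
      q.G2 (γ s).re (γ s).im * Real.sin s = 0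
  · refine grad_ne hOv q hq h ?_ ?_
    · filter_upwards [htan, hμ] with s h1 h2
      have e3 := Real.sin_sq_add_cos_sq s
      linear_combination (-q.G1 (γ s).re (γ s).im) * e3 + Real.cos s * h2 - Real.sin s * h1
    · filter_upwards [htan, hμ] with s h1 h2
      have e3 := Real.sin_sq_add_cos_sq s
      linear_combination (-q.G2 (γ s).re (γ s).im) * e3 + Real.sin s * h2 + Real.cos s * h1
  · have hfr : ∃ᶠ s in 𝓝 t0, q.G1 (γ s).re (γ s).im * Real.cos s +
      q.G2 (γ s).re (γ s).im * Real.sin s ≠ 0 := not_eventually.1 hμ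
    obtain ⟨s1, hs1, hs2, hs3⟩ := (hfr.and_eventually
      (h.eventually_nhds.and htan.eventually_nhds)).exists
    -- the kernel vector
    have hdet : (!![q.a, q.b, q.d; q.b, q.c, q.e; q.d, q.e, q.f] : Matrix (Fin 3) (Fin 3) ℝ).det
        = 0 := by
      rw [Matrix.det_fin_three]
      simp
      unfold Cf.Δ at hΔ
      linear_combination hΔ
    obtain ⟨n, hn0, hn⟩ := Matrix.exists_mulVec_eq_zero_iff.2 hdet
    have n1 := congrFun hn 0
    have n2 := congrFun hn 1
    have n3 := congrFun hn 2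
    simp [Matrix.mulVec, dotProduct, Fin.sum_univ_three] at n1 n2 n3
    have hcont : Continuous fun s => q.G1 (γ s).re (γ s).im * Real.cos s +
        q.G2 (γ s).re (γ s).im * Real.sin s := by
      have hc1 : Continuous fun s => (γ s).re :=
        continuous_iff_continuousAt.2 fun s => (der_re hOv s).continuousAt
      have hc2 : Continuous fun s => (γ s).im :=
        continuous_iff_continuousAt.2 fun s => (der_im hOv s).continuousAt
      unfold Cf.G1 Cf.G2
      fun_prop
    have hz : ∀ᶠ s in 𝓝 s1, n 0 * Real.cos s + n 1 * Real.sin s -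
        n 2 * ((γ s).re * Real.cos s + (γ s).im * Real.sin s) = 0 := by
      filter_upwards [hs2, hs3, hcont.continuousAt.eventually_ne hs1] with s e1 e2 e3
      have e4 := Real.sin_sq_add_cos_sq s
      set x := (γ s).re
      set y := (γ s).im
      set μ := q.G1 x y * Real.cos s + q.G2 x y * Real.sin s with hμdef
      have g1 : q.G1 x y = μ * Real.cos s := by
        rw [hμdef]
        linear_combination (-q.G1 x y) * e4 - Real.sin s * e2
      have g2 : q.G2 x y = μ * Real.sin s := by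
        rw [hμdef]
        linear_combination (-q.G2 x y) * e4 + Real.cos s * e2
      have g3 : q.G3 x y = -(μ * (x * Real.cos s + y * Real.sin s)) := by
        have := q.Q_eq x y
        rw [e1] at this
        rw [g1, g2] at this
        linear_combination -this
      have g4 : n 0 * q.G1 x y + n 1 * q.G2 x y + n 2 * q.G3 x y = 0 := by
        unfold Cf.G1 Cf.G2 Cf.G3
        linear_combination x * n1 + y * n2 + n3
      rw [g1, g2, g3] at g4
      have g5 : μ * (n 0 * Real.cos s + n 1 * Real.sin s -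
          n 2 * (x * Real.cos s + y * Real.sin s)) = 0 := by linear_combination g4
      exact (mul_eq_zero.1 g5).resolve_left e3
    have hz' := zero_deriv (F' := fun s => n 0 * (-Real.sin s) + n 1 * Real.cos s -
        n 2 * (-((γ s).re * Real.sin s) + (γ s).im * Real.cos s)) hz (fun s =>
      (((Real.hasDerivAt_cos s).const_mul (n 0)).add ((Real.hasDerivAt_sin s).const_mul (n 1))).sub
        ((der_sup hOv s).const_mul (n 2)))
    have hx : ∀ᶠ s in 𝓝 s1, n 2 * (γ s).re - n 0 = 0 := by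
      filter_upwards [hz, hz'] with s e1 e2
      have e4 := Real.sin_sq_add_cos_sq s
      linear_combination (n 0 - n 2 * (γ s).re) * e4 - Real.cos s * e1 + Real.sin s * e2
    have hy : ∀ᶠ s in 𝓝 s1, n 2 * (γ s).im - n 1 = 0 := by
      filter_upwards [hz, hz'] with s e1 e2
      have e4 := Real.sin_sq_add_cos_sq s
      linear_combination (n 1 - n 2 * (γ s).im) * e4 - Real.sin s * e1 - Real.cos s * e2
    have hx' := zero_deriv (F' := fun s => n 2 * (-(ρ s * Real.sin s))) hx
      (fun s => ((der_re hOv s).const_mul (n 2)).sub_const (n 0))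
    have hy' := zero_deriv (F' := fun s => n 2 * (ρ s * Real.cos s)) hy
      (fun s => ((der_im hOv s).const_mul (n 2)).sub_const (n 1))
    have f1 : n 2 * (-(ρ s1 * Real.sin s1)) = 0 := hx'.self_of_nhds
    have f2 : n 2 * (ρ s1 * Real.cos s1) = 0 := hy'.self_of_nhds
    have f3 : n 2 = 0 := by
      have e4 := Real.sin_sq_add_cos_sq s1
      have h5 : n 2 * ρ s1 = 0 := by
        linear_combination (-(n 2 * ρ s1)) * e4 - Real.sin s1 * f1 + Real.cos s1 * f2
      exact (mul_eq_zero.1 h5).resolve_right (hOv.pos s1).ne'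
    have f4 : n 0 = 0 := by
      have := hx.self_of_nhds
      rw [f3] at this
      linarith
    have f5 : n 1 = 0 := by
      have := hy.self_of_nhds
      rw [f3] at this
      linarith
    apply hn0
    funext i
    fin_cases i
    · exact f4
    · exact f5
    · exact f3

end oval

end Pool.Agent.V5helper83.AR
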