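import Pool.Agent.V5helper83.AR.Conic

/-! The dual conic and the first integral of the billiard inside a conic. -/

open Complex Set Filter Topology

namespace Pool.Agent.V5helper83.AR

open H738CZ

namespace Cf

variable (q : Cf)

/-- first integral of the billiard in the conic: minus the dual quadratic form -/
noncomputable def H (p : ℝ × ℝ) : ℝ :=
  -((q.c * q.f - q.e ^ 2) * Real.cos p.1 ^ 2 +
    2 * (q.d * q.e - q.b * q.f) * Real.cos p.1 * Real.sin p.1 +
    (q.a * q.f - q.d ^ 2) * Real.sin p.1 ^ 2 -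
    2 * p.2 * ((q.b * q.e - q.c * q.d) * Real.cos p.1 + (q.b * q.d - q.a * q.e) * Real.sin p.1) +
    (q.a * q.c - q.b ^ 2) * p.2 ^ 2)

noncomputable def w1 (p : ℝ × ℝ) : ℝ := (q.c * q.f - q.e ^ 2) * Real.cos p.1 +
  (q.d * q.e - q.b * q.f) * Real.sin p.1 - (q.b * q.e - q.c * q.d) * p.2
noncomputable def w2 (p : ℝ × ℝ) : ℝ := (q.d * q.e - q.b * q.f) * Real.cos p.1 +
  (q.a * q.f - q.d ^ 2) * Real.sin p.1 - (q.b * q.d - q.a * q.e) * p.2
noncomputable def w3 (p : ℝ × ℝ) : ℝ := (q.b * q.e - q.c * q.d) * Real.cos p.1 +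
  (q.b * q.d - q.a * q.e) * Real.sin p.1 - (q.a * q.c - q.b ^ 2) * p.2

theorem H_eq (p : ℝ × ℝ) :
    q.H p = -(q.w1 p * Real.cos p.1 + q.w2 p * Real.sin p.1 - q.w3 p * p.2) := by
  unfold H w1 w2 w3
  ring

theorem H_line (x y φ : ℝ) : q.H (φ, x * Real.cos φ + y * Real.sin φ) =
    (q.G2 x y * Real.cos φ - q.G1 x y * Real.sin φ) ^ 2 - q.Q x y *
      (q.a * Real.sin φ ^ 2 - 2 * q.b * Real.sin φ * Real.cos φ + q.c * Real.cos φ ^ 2) := by
  unfold H G1 G2 Q
  ring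

theorem H_analytic (p : ℝ × ℝ) : AnalyticAt ℝ q.H p := by
  have h1 : AnalyticAt ℝ (fun p : ℝ × ℝ => Real.cos p.1) p :=
    Real.analyticAt_cos.comp analyticAt_fst
  have h2 : AnalyticAt ℝ (fun p : ℝ × ℝ => Real.sin p.1) p :=
    Real.analyticAt_sin.comp analyticAt_fst
  have h3 : AnalyticAt ℝ (fun p : ℝ × ℝ => p.2) p := analyticAt_snd
  unfold H
  fun_prop

theorem H_d2 (p : ℝ × ℝ) : fderiv ℝ q.H p (0, 1) = 2 * q.w3 p := by
  obtain ⟨φ, y⟩ := p
  have h1 : HasDerivAt (fun t : ℝ => ((φ, t) : ℝ × ℝ)) ((0 : ℝ), (1 : ℝ)) y :=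
    (hasDerivAt_const y φ).prodMk (hasDerivAt_id y)
  have h2 := HasFDerivAt.comp_hasDerivAt y
    (q.H_analytic (φ, y)).differentiableAt.hasFDerivAt h1
  have h3 : HasDerivAt (fun t : ℝ => q.H (φ, t)) (2 * q.w3 (φ, y)) y := by
    have h4 : HasDerivAt (fun t : ℝ => (q.w3 (φ, 0) * 2) * t - (q.a * q.c - q.b ^ 2) * t ^ 2 +
        q.H (φ, 0)) ((q.w3 (φ, 0) * 2) * 1 - (q.a * q.c - q.b ^ 2) * (((2 : ℕ) : ℝ) * y ^ (2 - 1) * 1))
        y :=
      (((hasDerivAt_id y).const_mul _).sub (((hasDerivAt_id y).pow 2).const_mul _)).add_const _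
    refine (h4.congr_of_eventuallyEq (Eventually.of_forall fun t => ?_)).congr_deriv ?_
    · unfold H w3
      ring
    · unfold w3
      simp only [Nat.cast_ofNat]
      ring
  exact h2.unique h3

theorem H_d1 (p : ℝ × ℝ) : fderiv ℝ q.H p (1, 0) =
    2 * (q.w1 p * Real.sin p.1 - q.w2 p * Real.cos p.1) := by
  obtain ⟨φ, y⟩ := p
  have h1 : HasDerivAt (fun t : ℝ => ((t, y) : ℝ × ℝ)) ((1 : ℝ), (0 : ℝ)) φ :=
    (hasDerivAt_id φ).prodMk (hasDerivAt_const φ y)
  have h2 := HasFDerivAt.comp_hasDerivAt φ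
    (q.H_analytic (φ, y)).differentiableAt.hasFDerivAt h1
  have h3 : HasDerivAt (fun t : ℝ => q.H (t, y))
      (2 * (q.w1 (φ, y) * Real.sin φ - q.w2 (φ, y) * Real.cos φ)) φ := by
    have hc := Real.hasDerivAt_cos φ
    have hs := Real.hasDerivAt_sin φ
    have h4 := (((((hc.pow 2).const_mul (q.c * q.f - q.e ^ 2)).add
      ((hc.mul hs).const_mul (2 * (q.d * q.e - q.b * q.f)))).add
      ((hs.pow 2).const_mul (q.a * q.f - q.d ^ 2))).sub
      (((hc.const_mul (q.b * q.e - q.c * q.d)).add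
        (hs.const_mul (q.b * q.d - q.a * q.e))).const_mul (2 * y))).add_const
      ((q.a * q.c - q.b ^ 2) * y ^ 2) |>.neg
    refine (h4.congr_of_eventuallyEq (Eventually.of_forall fun t => ?_)).congr_deriv ?_
    · unfold H
      simp only [Pi.add_apply, Pi.mul_apply, Pi.pow_apply, Pi.sub_apply, Pi.neg_apply]
      ring
    · unfold w1 w2
      simp only [Nat.cast_ofNat]
      ring
  exact h2.unique h3

/-- the dual conic is regular -/
theorem H_reg (hΔ : q.Δ ≠ 0) (p : ℝ × ℝ) (h : q.H p = 0) : fderiv ℝ q.H p ≠ 0 := by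
  intro h0
  have e1 := q.H_d1 p
  have e2 := q.H_d2 p
  rw [h0] at e1 e2
  have e1' : (0 : ℝ) = 2 * (q.w1 p * Real.sin p.1 - q.w2 p * Real.cos p.1) := e1
  have e2' : (0 : ℝ) = 2 * q.w3 p := e2
  have e4 := Real.sin_sq_add_cos_sq p.1
  have h3 : q.w3 p = 0 := by linarith
  rw [H_eq, h3] at h
  have h1 : q.w1 p = 0 := by
    linear_combination (-q.w1 p) * e4 - Real.cos p.1 * h - Real.sin p.1 / 2 * e1'
  have h2 : q.w2 p = 0 := by
    linear_combination (-q.w2 p) * e4 - Real.sin p.1 * h + Real.cos p.1 / 2 * e1'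
  have f1 : q.a * q.w1 p + q.b * q.w2 p + q.d * q.w3 p = q.Δ * Real.cos p.1 := by
    unfold w1 w2 w3 Δ
    ring
  have f2 : q.b * q.w1 p + q.c * q.w2 p + q.e * q.w3 p = q.Δ * Real.sin p.1 := by
    unfold w1 w2 w3 Δ
    ring
  rw [h1, h2, h3] at f1 f2
  have g1 : Real.cos p.1 = 0 := by
    have : q.Δ * Real.cos p.1 = 0 := by linarith
    exact (mul_eq_zero.1 this).resolve_left hΔ
  have g2 : Real.sin p.1 = 0 := by
    have : q.Δ * Real.sin p.1 = 0 := by linarith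
    exact (mul_eq_zero.1 this).resolve_left hΔ
  rw [g1, g2] at e4
  norm_num at e4

end Cf

section oval
variable {γ : ℝ → ℂ} {ρ : ℝ → ℝ} (hOv : IsOval γ ρ)
include hOv

/-- if the tangent lines belong to the dual conic then the curve lies on the conic -/
theorem on_conic (q : Cf) (hΔ : q.Δ ≠ 0) (h : ∀ s, q.H (s, sup (γ s) s) = 0) (s : ℝ) :
    q.Q (γ s).re (γ s).im = 0 := by
  have hz : ∀ᶠ s in 𝓝 s, (fun s => q.H (s, (γ s).re * Real.cos s + (γ s).im * Real.sin s)) s = 0 :=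
    Eventually.of_forall fun s => by
      have := h s
      rw [sup_eq] at this
      exact this
  have hd := zero_deriv (F' := fun s =>
      2 * (q.w1 (s, sup (γ s) s) * Real.sin s - q.w2 (s, sup (γ s) s) * Real.cos s) +
      2 * q.w3 (s, sup (γ s) s) * (-((γ s).re * Real.sin s) + (γ s).im * Real.cos s)) hz
    (fun s => by
      have h1 : HasDerivAt (fun s : ℝ => ((s, (γ s).re * Real.cos s + (γ s).im * Real.sin s) :
          ℝ × ℝ)) ((1 : ℝ), -((γ s).re * Real.sin s) + (γ s).im * Real.cos s) s :=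
        (hasDerivAt_id s).prodMk (der_sup hOv s)
      have h2 := HasFDerivAt.comp_hasDerivAt s (q.H_analytic
        (s, (γ s).re * Real.cos s + (γ s).im * Real.sin s)).differentiableAt.hasFDerivAt h1
      refine h2.congr_deriv ?_
      rw [fderiv_split, q.H_d1, q.H_d2, sup_eq]
      ring)
  have e1 : 2 * (q.w1 (s, sup (γ s) s) * Real.sin s - q.w2 (s, sup (γ s) s) * Real.cos s) +
      2 * q.w3 (s, sup (γ s) s) * (-((γ s).re * Real.sin s) + (γ s).im * Real.cos s) = 0 :=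
    hd.self_of_nhds
  have e2 := h s
  rw [q.H_eq] at e2
  have e4 := Real.sin_sq_add_cos_sq s
  have f1 : q.a * q.w1 (s, sup (γ s) s) + q.b * q.w2 (s, sup (γ s) s) +
      q.d * q.w3 (s, sup (γ s) s) = q.Δ * Real.cos s := by
    unfold Cf.w1 Cf.w2 Cf.w3 Cf.Δ
    ring
  have f2 : q.b * q.w1 (s, sup (γ s) s) + q.c * q.w2 (s, sup (γ s) s) +
      q.e * q.w3 (s, sup (γ s) s) = q.Δ * Real.sin s := by
    unfold Cf.w1 Cf.w2 Cf.w3 Cf.Δ
    ring
  have f3 : q.d * q.w1 (s, sup (γ s) s) + q.e * q.w2 (s, sup (γ s) s) +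
      q.f * q.w3 (s, sup (γ s) s) = -(q.Δ * sup (γ s) s) := by
    unfold Cf.w1 Cf.w2 Cf.w3 Cf.Δ
    ring
  set W1 := q.w1 (s, sup (γ s) s)
  set W2 := q.w2 (s, sup (γ s) s)
  set W3 := q.w3 (s, sup (γ s) s)
  simp only at e2
  rw [sup_eq] at e2 f3
  set x := (γ s).re
  set y := (γ s).im
  have g1 : W1 = W3 * x := by
    linear_combination (W3 * x - W1) * e4 - Real.cos s * e2 + Real.sin s / 2 * e1
  have g2 : W2 = W3 * y := by
    linear_combination (W3 * y - W2) * e4 - Real.sin s * e2 - Real.cos s / 2 * e1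
  rw [g1, g2] at f1 f2 f3
  have hW3 : W3 ≠ 0 := by
    intro h0
    rw [h0] at f1 f2
    have c1 : Real.cos s = 0 := by
      have : q.Δ * Real.cos s = 0 := by linarith
      exact (mul_eq_zero.1 this).resolve_left hΔ
    have c2 : Real.sin s = 0 := by
      have : q.Δ * Real.sin s = 0 := by linarith
      exact (mul_eq_zero.1 this).resolve_left hΔ
    rw [c1, c2] at e4
    norm_num at e4
  have g3 : W3 * q.Q x y = 0 := by
    unfold Cf.Q
    linear_combination x * f1 + y * f2 + f3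
  exact (mul_eq_zero.1 g3).resolve_left hW3

/-- data on an arc of the conic -/
theorem arc_data (q : Cf) (hΔ : q.Δ ≠ 0) {t0 : ℝ}
    (h : ∀ᶠ s in 𝓝 t0, q.Q (γ s).re (γ s).im = 0) : ∀ᶠ s in 𝓝 t0,
    (∀ φ, q.H (φ, sup (γ s) φ) = (q.G1 (γ s).re (γ s).im * Real.cos s +
      q.G2 (γ s).re (γ s).im * Real.sin s) ^ 2 * Real.sin (φ - s) ^ 2) ∧
    q.G1 (γ s).re (γ s).im * Real.cos s + q.G2 (γ s).re (γ s).im * Real.sin s ≠ 0 ∧
    fderiv ℝ q.H (s, sup (γ s) s) (0, 1) ≠ 0 := by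
  filter_upwards [h, tangent hOv q h] with s e1 e2
  set x := (γ s).re
  set y := (γ s).im
  set μ := q.G1 x y * Real.cos s + q.G2 x y * Real.sin s with hμdef
  have e4 := Real.sin_sq_add_cos_sq s
  have g1 : q.G1 x y = μ * Real.cos s := by
    rw [hμdef]
    linear_combination (-q.G1 x y) * e4 - Real.sin s * e2
  have g2 : q.G2 x y = μ * Real.sin s := by
    rw [hμdef]
    linear_combination (-q.G2 x y) * e4 + Real.cos s * e2
  have g3 : q.G3 x y = -(μ * (x * Real.cos s + y * Real.sin s)) := by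
    have := q.Q_eq x y
    rw [e1] at this
    rw [g1, g2] at this
    linear_combination -this
  have hw : μ * q.w3 (s, sup (γ s) s) = q.Δ := by
    have k1 : (q.b * q.e - q.c * q.d) * q.G1 x y + (q.b * q.d - q.a * q.e) * q.G2 x y +
        (q.a * q.c - q.b ^ 2) * q.G3 x y = q.Δ := by
      unfold Cf.G1 Cf.G2 Cf.G3 Cf.Δ
      ring
    rw [g1, g2, g3] at k1
    rw [sup_eq]
    unfold Cf.w3
    simp only
    linear_combination k1
  have hμ0 : μ ≠ 0 := by
    intro h0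
    rw [h0, zero_mul] at hw
    exact hΔ hw.symm
  refine ⟨fun φ => ?_, hμ0, ?_⟩
  · rw [sup_eq, q.H_line, e1, g1, g2, Real.sin_sub]
    ring
  · rw [q.H_d2]
    intro h0
    have : q.w3 (s, sup (γ s) s) = 0 := by linarith
    rw [this, mul_zero] at hw
    exact hΔ hw.symm

end oval

end Pool.Agent.V5helper83.AR
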