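import Pool.Agent.V5helper83.AR.InnerFin
import Pool.Agent.H719R4.FX.Out

/-! Outer billiards: near an arc of a conic the integral is a function of the quadratic
polynomial. -/

open Complex Set Filter Topology

namespace Pool.Agent.V5helper83.AR

open H738CZ H719FX

namespace Cf

variable (q : Cf)

/-- the quadratic polynomial on pairs -/
def Qp (p : ℝ × ℝ) : ℝ := q.Q p.1 p.2

theorem Qp_analytic (p : ℝ × ℝ) : AnalyticAt ℝ q.Qp p := by
  have h1 : AnalyticAt ℝ (fun p : ℝ × ℝ => p.1) p := analyticAt_fst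
  have h2 : AnalyticAt ℝ (fun p : ℝ × ℝ => p.2) p := analyticAt_snd
  unfold Qp Q
  fun_prop

theorem Qp_d2 (p : ℝ × ℝ) : fderiv ℝ q.Qp p (0, 1) = 2 * q.G2 p.1 p.2 := by
  obtain ⟨x, y⟩ := p
  have h1 : HasDerivAt (fun t : ℝ => ((x, t) : ℝ × ℝ)) ((0 : ℝ), (1 : ℝ)) y :=
    (hasDerivAt_const y x).prodMk (hasDerivAt_id y)
  have h2 := HasFDerivAt.comp_hasDerivAt y
    (q.Qp_analytic (x, y)).differentiableAt.hasFDerivAt h1
  have h3 : HasDerivAt (fun t : ℝ => q.Qp (x, t)) (2 * q.G2 x y) y := by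
    have h4 : HasDerivAt (fun t : ℝ => q.c * t ^ 2 + (2 * q.b * x + 2 * q.e) * t +
        (q.a * x ^ 2 + 2 * q.d * x + q.f)) (q.c * (((2 : ℕ) : ℝ) * y ^ (2 - 1) * 1) +
        (2 * q.b * x + 2 * q.e) * 1) y :=
      ((((hasDerivAt_id y).pow 2).const_mul _).add ((hasDerivAt_id y).const_mul _)).add_const _
    refine (h4.congr_of_eventuallyEq (Eventually.of_forall fun t => ?_)).congr_deriv ?_
    · unfold Qp Q
      ring
    · unfold G2
      simp only [Nat.cast_ofNat]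
      ring
  exact h2.unique h3

theorem Qp_d1 (p : ℝ × ℝ) : fderiv ℝ q.Qp p (1, 0) = 2 * q.G1 p.1 p.2 := by
  obtain ⟨x, y⟩ := p
  have h1 : HasDerivAt (fun t : ℝ => ((t, y) : ℝ × ℝ)) ((1 : ℝ), (0 : ℝ)) x :=
    (hasDerivAt_id x).prodMk (hasDerivAt_const x y)
  have h2 := HasFDerivAt.comp_hasDerivAt x
    (q.Qp_analytic (x, y)).differentiableAt.hasFDerivAt h1
  have h3 : HasDerivAt (fun t : ℝ => q.Qp (t, y)) (2 * q.G1 x y) x := by
    have h4 : HasDerivAt (fun t : ℝ => q.a * t ^ 2 + (2 * q.b * y + 2 * q.d) * t +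
        (q.c * y ^ 2 + 2 * q.e * y + q.f)) (q.a * (((2 : ℕ) : ℝ) * x ^ (2 - 1) * 1) +
        (2 * q.b * y + 2 * q.d) * 1) x :=
      ((((hasDerivAt_id x).pow 2).const_mul _).add ((hasDerivAt_id x).const_mul _)).add_const _
    refine (h4.congr_of_eventuallyEq (Eventually.of_forall fun t => ?_)).congr_deriv ?_
    · unfold Qp Q
      ring
    · unfold G1
      simp only [Nat.cast_ofNat]
      ring
  exact h2.unique h3

/-- a nondegenerate conic is regular -/
theorem Qp_reg (hΔ : q.Δ ≠ 0) (p : ℝ × ℝ) (h : q.Qp p = 0) : fderiv ℝ q.Qp p ≠ 0 := by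
  intro h0
  have e1 := q.Qp_d1 p
  have e2 := q.Qp_d2 p
  rw [h0] at e1 e2
  have e1' : (0 : ℝ) = 2 * q.G1 p.1 p.2 := e1
  have e2' : (0 : ℝ) = 2 * q.G2 p.1 p.2 := e2
  have h1 : q.G1 p.1 p.2 = 0 := by linarith
  have h2 : q.G2 p.1 p.2 = 0 := by linarith
  have h3 : q.G3 p.1 p.2 = 0 := by
    have h4 : q.Q p.1 p.2 = 0 := h
    rw [q.Q_eq, h1, h2] at h4
    linarith
  apply hΔ
  have k1 : (q.b * q.e - q.c * q.d) * q.G1 p.1 p.2 + (q.b * q.d - q.a * q.e) * q.G2 p.1 p.2 +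
      (q.a * q.c - q.b ^ 2) * q.G3 p.1 p.2 = q.Δ := by
    unfold G1 G2 G3 Δ
    ring
  rw [h1, h2, h3] at k1
  linarith

/-- opposite sign -/
def neg : Cf := ⟨-q.a, -q.b, -q.c, -q.d, -q.e, -q.f⟩

theorem neg_Q (x y : ℝ) : q.neg.Q x y = -q.Q x y := by
  unfold neg Q
  ring

theorem neg_Δ : q.neg.Δ = -q.Δ := by
  unfold neg Δ
  ring

theorem neg_Nz (h : q.Nz) : q.neg.Nz := by
  rintro ⟨h0, h1, h2, h3, h4, h5⟩
  exact h ⟨neg_eq_zero.1 h0, neg_eq_zero.1 h1, neg_eq_zero.1 h2, neg_eq_zero.1 h3,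
    neg_eq_zero.1 h4, neg_eq_zero.1 h5⟩

/-- the quadratic part on the tangent direction -/
noncomputable def q2 (s : ℝ) : ℝ :=
  q.a * Real.sin s ^ 2 - 2 * q.b * Real.sin s * Real.cos s + q.c * Real.cos s ^ 2

theorem neg_q2 (s : ℝ) : q.neg.q2 s = -q.q2 s := by
  unfold neg q2
  ring

theorem q2_cont : Continuous q.q2 := by
  unfold q2
  fun_prop

end Cf

/-- the point at distance `δ` on the tangent line -/
noncomputable def pt (γ : ℝ → ℂ) (s δ : ℝ) : ℝ × ℝ :=
  ((γ s).re - δ * Real.sin s, (γ s).im + δ * Real.cos s)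

section oval
variable {γ : ℝ → ℂ} {ρ : ℝ → ℝ} (hOv : IsOval γ ρ)
include hOv

theorem cont_pt : Continuous fun z : ℝ × ℝ => pt γ z.1 z.2 := by
  have h1 := cont_re hOv
  have h2 := cont_im hOv
  unfold pt
  exact ((h1.comp continuous_fst).sub (continuous_snd.mul
    (Real.continuous_sin.comp continuous_fst))).prodMk ((h2.comp continuous_fst).add
    (continuous_snd.mul (Real.continuous_cos.comp continuous_fst)))

omit hOv in
theorem pt_analytic (s δ : ℝ) : AnalyticAt ℝ (fun δ => pt γ s δ) δ := by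
  unfold pt
  have h1 : AnalyticAt ℝ (fun δ : ℝ => (γ s).re - δ * Real.sin s) δ := by fun_prop
  have h2 : AnalyticAt ℝ (fun δ : ℝ => (γ s).im + δ * Real.cos s) δ := by fun_prop
  exact h1.prod h2

omit hOv in
theorem pt_zero (s : ℝ) : pt γ s 0 = ((γ s).re, (γ s).im) := by simp [pt]

/-- a box on which the points stay in an open set -/
theorem obox {V : Set (ℝ × ℝ)} {t0 : ℝ} (hV : V ∈ 𝓝 (((γ t0).re, (γ t0).im) : ℝ × ℝ)) :
    ∃ r > 0, ∀ s, |s - t0| < r → ∀ δ, |δ| < r → pt γ s δ ∈ V := by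
  have h2 := (cont_pt hOv).continuousAt (x := ((t0, 0) : ℝ × ℝ)) (by
    show V ∈ 𝓝 (pt γ t0 0)
    rw [pt_zero]
    exact hV)
  obtain ⟨r, hr, hb⟩ := Metric.mem_nhds_iff.1 h2
  refine ⟨r, hr, fun s hs δ hδ => ?_⟩
  exact hb (mem_box.2 ⟨hs, by rwa [sub_zero]⟩)

/-- data on an arc of the conic -/
theorem oarc_data (q : Cf) (hΔ : q.Δ ≠ 0) {t0 : ℝ}
    (h : ∀ᶠ s in 𝓝 t0, q.Q (γ s).re (γ s).im = 0) : ∀ᶠ s in 𝓝 t0,
    (∀ δ, q.Qp (pt γ s δ) = δ ^ 2 * q.q2 s) ∧ q.q2 s ≠ 0 ∧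
      (Real.sin s ≠ 0 → fderiv ℝ q.Qp ((γ s).re, (γ s).im) (0, 1) ≠ 0) := by
  have htan := tangent hOv q h
  have hd := zero_deriv (F' := fun s => -((q.a * (-(ρ s * Real.sin s)) + q.b * (ρ s * Real.cos s)) *
      Real.sin s + q.G1 (γ s).re (γ s).im * Real.cos s) +
      ((q.b * (-(ρ s * Real.sin s)) + q.c * (ρ s * Real.cos s)) * Real.cos s +
      q.G2 (γ s).re (γ s).im * (-Real.sin s))) htan (fun s => by
    have hx := der_re hOv s
    have hy := der_im hOv s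
    have g1 : HasDerivAt (fun s => q.G1 (γ s).re (γ s).im)
        (q.a * (-(ρ s * Real.sin s)) + q.b * (ρ s * Real.cos s)) s :=
      ((hx.const_mul q.a).add (hy.const_mul q.b)).add_const q.d
    have g2 : HasDerivAt (fun s => q.G2 (γ s).re (γ s).im)
        (q.b * (-(ρ s * Real.sin s)) + q.c * (ρ s * Real.cos s)) s :=
      ((hx.const_mul q.b).add (hy.const_mul q.c)).add_const q.e
    exact (g1.mul (Real.hasDerivAt_sin s)).neg.add (g2.mul (Real.hasDerivAt_cos s)))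
  filter_upwards [h, htan, hd, arc_data hOv q hΔ h] with s e1 e2 e3 e5
  obtain ⟨-, hμ, -⟩ := e5
  set x := (γ s).re
  set y := (γ s).im
  have e4 := Real.sin_sq_add_cos_sq s
  refine ⟨fun δ => ?_, ?_, fun hs => ?_⟩
  · have h1 : q.Qp (pt γ s δ) = q.Q x y + 2 * δ * (-(q.G1 x y * Real.sin s) +
        q.G2 x y * Real.cos s) + δ ^ 2 * q.q2 s := by
      unfold Cf.Qp pt Cf.Q Cf.G1 Cf.G2 Cf.q2
      ring
    rw [h1, e1, e2]
    ring
  · intro h0
    apply hμ
    have h1 : ρ s * q.q2 s = q.G1 x y * Real.cos s + q.G2 x y * Real.sin s := by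
      unfold Cf.q2
      linear_combination e3
    rw [← h1, h0, mul_zero]
  · rw [q.Qp_d2]
    intro h0
    have h1 : q.G2 x y = 0 := by
      have : 2 * q.G2 x y = 0 := h0
      linarith
    rw [h1] at e2 hμ
    have h2 : q.G1 x y = 0 := by
      have : q.G1 x y * Real.sin s = 0 := by linarith
      exact (mul_eq_zero.1 this).resolve_right hs
    apply hμ
    rw [h2]
    ring

variable {K : ℝ → ℝ → ℝ} {U : Set (ℝ × ℝ)} (hK : OInt γ K U)
include hK

/-- the invariance holds uniformly -/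
theorem ouni (t0 : ℝ) : ∃ r > 0, ∀ s, |s - t0| < r → ∀ δ, |δ| < r →
    pt γ s δ ∈ U ∧ Function.uncurry K (pt γ s δ) = Function.uncurry K (pt γ s (-δ)) := by
  obtain ⟨r, hr, hb⟩ := obox hOv (hK.op.mem_nhds (hK.mem t0))
  refine ⟨r, hr, fun s hs δ hδ => ⟨hb s hs δ hδ, ?_⟩⟩
  have hana : ∀ δ ∈ Metric.ball (0 : ℝ) r, AnalyticAt ℝ
      (fun δ => Function.uncurry K (pt γ s δ) - Function.uncurry K (pt γ s (-δ))) δ := by
    intro δ hδ
    rw [mem_ball_zero_iff, Real.norm_eq_abs] at hδ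
    have h1 : AnalyticAt ℝ (fun δ => Function.uncurry K (pt γ s δ)) δ :=
      (hK.an _ (hb s hs δ hδ)).comp (pt_analytic s δ)
    have h2 : AnalyticAt ℝ (fun δ => Function.uncurry K (pt γ s δ)) (-δ) :=
      (hK.an _ (hb s hs (-δ) (by rwa [abs_neg]))).comp (pt_analytic s (-δ))
    exact h1.sub (h2.comp (f := fun δ : ℝ => -δ) analyticAt_id.neg)
  have hfr : ∃ᶠ δ in 𝓝[≠] (0 : ℝ),
      (fun δ => Function.uncurry K (pt γ s δ) - Function.uncurry K (pt γ s (-δ))) δ = 0 := by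
    obtain ⟨εs, hεs, h⟩ := hK.inv s
    have h1 : ∀ᶠ δ in 𝓝[>] (0 : ℝ),
        (fun δ => Function.uncurry K (pt γ s δ) - Function.uncurry K (pt γ s (-δ))) δ = 0 := by
      filter_upwards [Ioo_mem_nhdsGT hεs] with δ hδ
      have := h δ hδ.1 hδ.2
      show Function.uncurry K (pt γ s δ) - Function.uncurry K (pt γ s (-δ)) = 0
      unfold pt Function.uncurry
      simp only [neg_mul, sub_neg_eq_add]
      rw [← sub_eq_add_neg, this, sub_self]
    exact h1.frequently.filter_mono (nhdsWithin_mono _ fun x hx => (ne_of_gt hx : x ≠ 0))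
  have h2 := AnalyticOnNhd.eqOn_zero_of_preconnected_of_frequently_eq_zero
    (f := fun δ => Function.uncurry K (pt γ s δ) - Function.uncurry K (pt γ s (-δ)))
    hana (convex_ball (0 : ℝ) r).isPreconnected (Metric.mem_ball_self hr) hfr
  have h3 := h2 (show δ ∈ Metric.ball (0 : ℝ) r by
    rw [mem_ball_zero_iff, Real.norm_eq_abs]
    exact hδ)
  exact sub_eq_zero.1 h3

/-- the integral is constant on the curve -/
theorem oK_const (s : ℝ) : Function.uncurry K ((γ s).re, (γ s).im) =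
    Function.uncurry K ((γ 0).re, (γ 0).im) := by
  have hder : ∀ s, HasDerivAt (fun s => Function.uncurry K ((γ s).re, (γ s).im)) 0 s := by
    intro s
    have hKs : HasFDerivAt (Function.uncurry K) (fderiv ℝ (Function.uncurry K) ((γ s).re, (γ s).im))
        ((γ s).re, (γ s).im) := (hK.an _ (hK.mem s)).differentiableAt.hasFDerivAt
    set v := fderiv ℝ (Function.uncurry K) ((γ s).re, (γ s).im)
      (-Real.sin s, Real.cos s) with hv
    have h1 : HasDerivAt (fun s => Function.uncurry K ((γ s).re, (γ s).im)) (ρ s * v) s := by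
      have h2 : HasDerivAt (fun s : ℝ => (((γ s).re, (γ s).im) : ℝ × ℝ))
          (ρ s • ((-Real.sin s, Real.cos s) : ℝ × ℝ)) s := by
        refine ((der_re hOv s).prodMk (der_im hOv s)).congr_deriv ?_
        ext
        · simp
        · simp
      refine (HasFDerivAt.comp_hasDerivAt s hKs h2).congr_deriv ?_
      rw [map_smul, smul_eq_mul]
    have h4 : HasDerivAt (fun δ => Function.uncurry K (pt γ s δ)) v 0 := by
      have h6 : HasDerivAt (fun δ : ℝ => pt γ s δ) (-Real.sin s, Real.cos s) 0 := by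
        have h7 : HasDerivAt (fun δ : ℝ => (γ s).re - δ * Real.sin s) (-(1 * Real.sin s)) (0 : ℝ) :=
          ((hasDerivAt_id (0 : ℝ)).mul_const (Real.sin s)).const_sub _
        have h8 : HasDerivAt (fun δ : ℝ => (γ s).im + δ * Real.cos s) (1 * Real.cos s) (0 : ℝ) :=
          ((hasDerivAt_id (0 : ℝ)).mul_const (Real.cos s)).const_add _
        rw [one_mul] at h7 h8
        exact h7.prodMk h8
      have h7 : HasFDerivAt (Function.uncurry K)
          (fderiv ℝ (Function.uncurry K) ((γ s).re, (γ s).im)) (pt γ s 0) := by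
        rw [pt_zero]
        exact hKs
      exact HasFDerivAt.comp_hasDerivAt (0 : ℝ) h7 h6
    have h8 : HasDerivAt (fun δ => Function.uncurry K (pt γ s (-δ))) (v * (-1)) 0 := by
      have h9 : HasDerivAt (fun δ => Function.uncurry K (pt γ s δ)) v (-0) := by
        rw [neg_zero]
        exact h4
      exact h9.comp (0 : ℝ) (hasDerivAt_neg (0 : ℝ))
    obtain ⟨r, hr, hu⟩ := ouni hOv hK s
    have h10 : HasDerivAt (fun δ => Function.uncurry K (pt γ s δ)) (v * (-1)) 0 := by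
      refine h8.congr_of_eventuallyEq ?_
      filter_upwards [Metric.ball_mem_nhds (0 : ℝ) hr] with δ hδ
      rw [mem_ball_zero_iff, Real.norm_eq_abs] at hδ
      exact (hu s (by rw [sub_self, abs_zero]; exact hr) δ hδ).2
    have h11 := h4.unique h10
    have h12 : v = 0 := by linarith
    rw [h12, mul_zero] at h1
    exact h1
  exact is_const_of_deriv_eq_zero (fun s => (hder s).differentiableAt) (fun s => (hder s).deriv) s 0

/-- near a suitable point of an arc of a conic the integral depends on the quadratic polynomial,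
positive case -/
theorem outer_dep_pos (q : Cf) (hΔ : q.Δ ≠ 0) {t0 : ℝ}
    (h : ∀ᶠ s in 𝓝 t0, q.Q (γ s).re (γ s).im = 0) (hsin : Real.sin t0 ≠ 0) (hpos : 0 < q.q2 t0) :
    Dep (Function.uncurry K) q.Qp ((γ t0).re, (γ t0).im) := by
  have hdat := oarc_data hOv q hΔ h
  obtain ⟨-, -, hd⟩ := hdat.self_of_nhds
  have hd := hd hsin
  have hHP : q.Qp ((γ t0).re, (γ t0).im) = 0 := h.self_of_nhds
  set κ := q.q2 t0 / 2 with hκ
  have hκ0 : 0 < κ := by positivity
  have hκμ : ∀ᶠ s in 𝓝 t0, κ < q.q2 s :=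
    q.q2_cont.continuousAt.eventually_const_lt (by linarith)
  obtain ⟨σ, hσ1, hσs⟩ : ∃ σ : ℝ, |σ| = 1 ∧ 0 < σ * Real.sin t0 := by
    rcases lt_or_gt_of_ne hsin with h1 | h1
    · exact ⟨-1, by simp, by linarith⟩
    · exact ⟨1, by simp, by linarith⟩
  have hσe : ∀ᶠ s in 𝓝 t0, 0 < σ * Real.sin s :=
    (continuous_const.mul Real.continuous_sin).continuousAt.eventually_const_lt hσs
  obtain ⟨r1, hr1, hev⟩ := Metric.eventually_nhds_iff.1 (hdat.and (hκμ.and hσe))
  obtain ⟨r2, hr2, hu⟩ := ouni hOv hK t0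
  have hsκ : 0 < √κ := Real.sqrt_pos.2 hκ0
  refine dep_of_chords (C := 1 / √κ) (hK.an _ (hK.mem t0)) (q.Qp_analytic _) hd
    (by positivity) fun V hV => ?_
  obtain ⟨r3, hr3, hbox⟩ := obox hOv hV
  set m := min r2 r3 with hm
  have hm0 : 0 < m := lt_min hr2 hr3
  -- every abscissa near `x0` is taken
  have hst : HasStrictDerivAt (fun s => (γ s).re) (-(ρ t0 * Real.sin t0)) t0 := by
    refine hasStrictDerivAt_of_hasDerivAt_of_continuousAt
      (f' := fun s => -(ρ s * Real.sin s)) (Eventually.of_forall fun s => der_re hOv s) ?_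
    exact ((hOv.cont.mul Real.continuous_sin).neg).continuousAt
  have hmap := hst.map_nhds_eq (neg_ne_zero.2 (mul_ne_zero (hOv.pos t0).ne' hsin))
  have hN : {s : ℝ | |s - t0| < min r1 m} ∈ 𝓝 t0 := by
    have := Metric.ball_mem_nhds t0 (lt_min hr1 hm0)
    filter_upwards [this] with s hs
    rw [Metric.mem_ball, Real.dist_eq] at hs
    exact hs
  have himg : (fun s => (γ s).re) '' {s : ℝ | |s - t0| < min r1 m} ∈ 𝓝 (γ t0).re := by
    rw [← hmap]
    exact image_mem_map hN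
  obtain ⟨r, hr, hrb⟩ := Metric.mem_nhds_iff.1 himg
  refine ⟨r, hr, (m * √κ) ^ 2, by positivity, fun t ht η hη1 hη2 => ?_⟩
  have htb : t ∈ Metric.ball (γ t0).re r := by
    rw [Metric.mem_ball, Real.dist_eq]
    exact ht
  obtain ⟨s, hs, hst'⟩ := hrb htb
  have hs1 : |s - t0| < r1 := lt_of_lt_of_le hs (min_le_left _ _)
  have hs2 : |s - t0| < m := lt_of_lt_of_le hs (min_le_right _ _)
  obtain ⟨⟨d1, -, -⟩, d2, d3⟩ := hev (y := s) (by rw [Real.dist_eq]; exact hs1)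
  have hst2 : (γ s).re = t := hst'
  have hsη : 0 < √η := Real.sqrt_pos.2 hη1
  have hsη2 : √η < m * √κ := by
    rw [Real.sqrt_lt' (by positivity)]
    exact hη2
  have hq0 : 0 < q.q2 s := hκ0.trans d2
  set δ := √(η / q.q2 s) with hδ
  have hδ0 : 0 < δ := Real.sqrt_pos.2 (by positivity)
  have hδ2 : δ ^ 2 * q.q2 s = η := by
    rw [hδ, Real.sq_sqrt (by positivity), div_mul_cancel₀ _ hq0.ne']
  have hδC : δ ≤ 1 / √κ * √η := by
    have h1 : δ ≤ √(η / κ) := Real.sqrt_le_sqrt (div_le_div_of_nonneg_left hη1.le hκ0 d2.le)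
    rw [Real.sqrt_div hη1.le] at h1
    calc δ ≤ √η / √κ := h1
      _ = 1 / √κ * √η := by ring
  have hδm : δ < m := by
    refine hδC.trans_lt ?_
    rw [one_div, inv_mul_lt_iff₀ hsκ]
    linarith
  have hσδ : |σ * δ| = δ := by rw [abs_mul, hσ1, one_mul, abs_of_pos hδ0]
  have hsin1 : |Real.sin s| ≤ 1 := Real.abs_sin_le_one s
  have hσsin : σ * Real.sin s ≤ 1 := by
    have h1 : σ * Real.sin s ≤ |σ * Real.sin s| := le_abs_self _
    rw [abs_mul, hσ1, one_mul] at h1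
    linarith
  have hle : σ * δ * Real.sin s ≤ δ := by nlinarith
  have hpos' : 0 < σ * δ * Real.sin s := by
    have : σ * δ * Real.sin s = δ * (σ * Real.sin s) := by ring
    rw [this]
    exact mul_pos hδ0 d3
  refine ⟨pt γ s (σ * δ), hbox s (hs2.trans_le (min_le_right _ _)) _
      (by rw [hσδ]; exact hδm.trans_le (min_le_right _ _)), pt γ s (-(σ * δ)),
      hbox s (hs2.trans_le (min_le_right _ _)) _
      (by rw [abs_neg, hσδ]; exact hδm.trans_le (min_le_right _ _)), ?_, ?_, ?_, ?_, ?_, ?_⟩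
  · show (γ s).re - σ * δ * Real.sin s < (γ s).re - -(σ * δ) * Real.sin s
    linarith
  · show |(γ s).re - σ * δ * Real.sin s - t| ≤ _
    rw [hst2, show t - σ * δ * Real.sin s - t = -(σ * δ * Real.sin s) by ring, abs_neg,
      abs_of_pos hpos']
    exact hle.trans hδC
  · show |(γ s).re - -(σ * δ) * Real.sin s - t| ≤ _
    rw [hst2, show t - -(σ * δ) * Real.sin s - t = σ * δ * Real.sin s by ring,
      abs_of_pos hpos']
    exact hle.trans hδC
  · rw [hHP, zero_add, d1, ← sq_abs (σ * δ), hσδ]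
    exact hδ2
  · rw [hHP, zero_add, d1, neg_sq, ← sq_abs (σ * δ), hσδ]
    exact hδ2
  · exact (hu s (hs2.trans_le (min_le_left _ _)) _
      (by rw [hσδ]; exact hδm.trans_le (min_le_left _ _))).2

/-- near a suitable point of an arc of a conic the integral depends on the quadratic polynomial -/
theorem outer_dep (q : Cf) (hq : q.Nz) {t0 : ℝ}
    (h : ∀ᶠ s in 𝓝 t0, q.Q (γ s).re (γ s).im = 0) :
    ∃ (t1 : ℝ) (p : Cf), p.Nz ∧ p.Δ ≠ 0 ∧ (∀ᶠ s in 𝓝 t1, p.Q (γ s).re (γ s).im = 0) ∧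
      Dep (Function.uncurry K) p.Qp ((γ t1).re, (γ t1).im) := by
  have hΔ := det_ne hOv q hq h
  have hsin : ∃ᶠ s in 𝓝 t0, Real.sin s ≠ 0 := by
    intro hcon
    have h1 : ∀ᶠ s in 𝓝 t0, (0 : ℝ) * Real.cos s + 1 * Real.sin s = 0 := by
      filter_upwards [hcon] with s hs
      rw [not_not.1 hs]
      ring
    exact one_ne_zero (trig_zero h1).2
  obtain ⟨t1, hs1, hs2, hs3⟩ := (hsin.and_eventually
    (h.eventually_nhds.and (oarc_data hOv q hΔ h))).exists
  rcases lt_or_gt_of_ne hs3.2.1 with h1 | h1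
  · have hQ : ∀ᶠ s in 𝓝 t1, q.neg.Q (γ s).re (γ s).im = 0 := by
      filter_upwards [hs2] with s hs
      rw [q.neg_Q, hs, neg_zero]
    have hΔ' : q.neg.Δ ≠ 0 := by rw [q.neg_Δ]; exact neg_ne_zero.2 hΔ
    exact ⟨t1, q.neg, q.neg_Nz hq, hΔ', hQ, outer_dep_pos hOv hK q.neg hΔ' hQ hs1
      (by rw [q.neg_q2]; linarith)⟩
  · exact ⟨t1, q, hq, hΔ, hs2, outer_dep_pos hOv hK q hΔ hs2 hs1 h1⟩

/-- a conic arc of the curve -/
theorem outer_conic {q : Cf} (hq : q.Nz) {t0 : ℝ}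
    (h : ∀ᶠ s in 𝓝 t0, q.Q (γ s).re (γ s).im = 0) :
    ∃ (c : ℂ) (a b d : ℝ), 0 < a ∧ 0 < a * d - b ^ 2 ∧
      Set.range γ = {x : ℂ | a * (x.re - c.re) ^ 2 + 2 * b * (x.re - c.re) * (x.im - c.im)
        + d * (x.im - c.im) ^ 2 = 1} := by
  obtain ⟨t1, p, hp, hΔ, hpQ, hdep⟩ := outer_dep hOv hK q hq h
  have hG : Continuous fun s => (((γ s).re, (γ s).im) : ℝ × ℝ) :=
    (cont_re hOv).prodMk (cont_im hOv)
  obtain ⟨hall, -⟩ := propagate hK.op hK.pc hK.an (fun z _ => p.Qp_analytic z) hG hK.mem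
    (oK_const hOv hK) (fun hcon => hK.nc ⟨_, fun z hz => hcon z hz⟩)
    (fun s hs => p.Qp_reg hΔ _ hs) hdep hpQ
  exact ellipse_of_Q hOv p hp hall

end oval

end Pool.Agent.V5helper83.AR
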