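import Pool.Agent.V5helper83.AR.InnerFin
import Pool.Agent.V5helper83.AR.OuterDep
import Pool.Agent.H719R4.FZ.AAY
import Pool.Agent.W743.BE.Fin
import Pool.Agent.W743.BE.OutFin

/-! Ovals with an arc which is parametrised by a function of order less than one. -/

open Complex Set Filter Topology

namespace Pool.Agent.V5helper83.AR

open H738CZ H719FX Pool.Agent.W743.BE

/-- complex coefficients in `γ`, `conj γ` to a real conic -/
theorem to_real {γ : ℝ → ℂ} {t0 : ℝ} {q0 q1 q2 q3 q4 q5 : ℂ}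
    (hq : ¬ (q0 = 0 ∧ q1 = 0 ∧ q2 = 0 ∧ q3 = 0 ∧ q4 = 0 ∧ q5 = 0))
    (h : ∀ᶠ t in 𝓝 t0, q0 * γ t ^ 2 + q1 * γ t * (starRingEnd ℂ) (γ t) +
      q2 * (starRingEnd ℂ) (γ t) ^ 2 + q3 * γ t + q4 * (starRingEnd ℂ) (γ t) + q5 = 0) :
    ∃ q : Cf, q.Nz ∧ ∀ᶠ s in 𝓝 t0, q.Q (γ s).re (γ s).im = 0 :=
  realify (x := fun t => (γ t).re) (y := fun t => (γ t).im)
    (P0 := q0 + q1 + q2) (P1 := 2 * I * (q0 - q2)) (P2 := q1 - q0 - q2) (P3 := q3 + q4)
    (P4 := I * (q3 - q4)) (P5 := q5) (t0 := t0) (by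
      rintro ⟨e0, e1, e2, e3, e4, e5⟩
      apply hq
      have a0 : q1 = 0 := by linear_combination (e0 + e2) / 2
      have a1 : q0 - q2 = 0 := by
        linear_combination (-I / 2) * e1 + (q0 - q2) * I_sq
      have a2 : q3 - q4 = 0 := by linear_combination (-I) * e4 + (q3 - q4) * I_sq
      exact ⟨by linear_combination (e0 - a0 + a1) / 2, a0, by linear_combination (e0 - a0 - a1) / 2,
        by linear_combination (e3 + a2) / 2, by linear_combination (e3 - a2) / 2, e5⟩) (by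
      filter_upwards [h] with t ht
      have hz : γ t = ((γ t).re : ℂ) + ((γ t).im : ℂ) * I := (Complex.re_add_im _).symm
      have hw : (starRingEnd ℂ) (γ t) = ((γ t).re : ℂ) - ((γ t).im : ℂ) * I := by
        conv_lhs => rw [hz]
        rw [map_add, map_mul, conj_ofReal, conj_ofReal, conj_I]
        ring
      rw [hw] at ht
      rw [hz] at ht
      simp only [Complex.add_re, Complex.add_im, Complex.ofReal_re, Complex.ofReal_im,
        Complex.mul_re, Complex.mul_im, Complex.I_re, Complex.I_im, mul_zero, mul_one,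
        zero_add, add_zero, sub_self] at ht
      linear_combination ht - ((γ t).im : ℂ) ^ 2 * (q0 - q1 + q2) * I_sq)

/-- an arc with regular complexification, parametrised by a function of order less than one, lies
on a conic -/
theorem entire_arc {γ : ℝ → ℂ} {Z W : ℂ → ℂ} {σ : ℝ} (hσ : 0 ≤ σ) (hσ1 : σ < 1)
    (hZd : Differentiable ℂ Z) (pZ : Per Z) (gZ : Gr σ Z)
    (hs : ∀ t, W t = (starRingEnd ℂ) (Z ((starRingEnd ℂ) t)))
    {θ : ℝ → ℝ} {x0 x1 : ℝ} (hx : x0 < x1) (hθ : ContinuousOn θ (Ioo x0 x1))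
    (hγ : ∀ t ∈ Ioo x0 x1, γ (θ t) = Z t)
    (hreg : ∀ t : ℂ, (¬ ∀ᶠ s in 𝓝 t, Wr Z W s = 0) ∧ Reg Z W t) :
    ∃ (s0 : ℝ) (q : Cf), q.Nz ∧ ∀ᶠ s in 𝓝 s0, q.Q (γ s).re (γ s).im = 0 := by
  have hdW : Differentiable ℂ W := by
    have h1 : W = ((starRingEnd ℂ) ∘ Z ∘ (starRingEnd ℂ)) := funext hs
    rw [h1]
    intro t
    exact differentiableAt_conj_conj_iff.2 (hZd _)
  -- constant affine curvature
  obtain ⟨m0, hm0⟩ : ∃ m0 : ℂ, ∀ t, Mi Z W t ^ 3 = m0 * Wr Z W t ^ 8 := by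
    rcases core hσ hσ1 hZd pZ gZ hs (fun t => (hreg t).1) (fun t => (hreg t).2) with h | ⟨m, hm⟩
    · exact ⟨0, fun t => by rw [h]; ring⟩
    · exact ⟨m, fun t => (hm t).2⟩
  -- a real point with nonzero Wronskian
  set m : ℝ := (x0 + x1) / 2 with hm
  have hmm : m ∈ Ioo x0 x1 := ⟨by rw [hm]; linarith, by rw [hm]; linarith⟩
  have hWrd : Differentiable ℂ (Wr Z W) := wr_diff hZd hdW
  have hne : ∀ᶠ s in 𝓝[≠] (m : ℂ), Wr Z W s ≠ 0 := by
    rcases (hWrd.analyticAt (m : ℂ)).eventually_eq_zero_or_eventually_ne_zero with h | h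
    · exact absurd h (hreg m).1
    · exact h
  have hIoo : ∀ᶠ t in 𝓝 m, t ∈ Ioo x0 x1 := Ioo_mem_nhds hmm.1 hmm.2
  obtain ⟨t0, ht0, ht0m⟩ : ∃ t0 : ℝ, Wr Z W t0 ≠ 0 ∧ t0 ∈ Ioo x0 x1 :=
    (((AAY_tend m).eventually hne).and (hIoo.filter_mono nhdsWithin_le_nhds)).exists
  obtain ⟨r, hr, hball⟩ := Metric.eventually_nhds_iff_ball.1
    (hWrd.continuous.continuousAt.eventually_ne ht0)
  obtain ⟨q0, q1, q2, q3, q4, q5, hq, hev⟩ := tCQU Z W t0 m0 r hr hZd.differentiableOn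
    hdW.differentiableOn (fun t ht => ⟨hball t ht, hm0 t⟩)
  -- real parameters
  have hevR : ∀ᶠ t : ℝ in 𝓝 t0, q0 * γ (θ t) ^ 2 + q1 * γ (θ t) * (starRingEnd ℂ) (γ (θ t)) +
      q2 * (starRingEnd ℂ) (γ (θ t)) ^ 2 + q3 * γ (θ t) + q4 * (starRingEnd ℂ) (γ (θ t)) + q5
        = 0 := by
    filter_upwards [Complex.continuous_ofReal.continuousAt.eventually hev,
      Ioo_mem_nhds ht0m.1 ht0m.2] with t h1 h2
    rw [hγ t h2]
    rw [hs (t : ℂ), conj_ofReal] at h1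
    exact h1
  obtain ⟨δ, hδ, hδb⟩ := Metric.eventually_nhds_iff_ball.1
    (hevR.and (Ioo_mem_nhds ht0m.1 ht0m.2))
  -- `θ` is not constant near `t0`
  obtain ⟨t1, ht1, hne1⟩ : ∃ t1 ∈ Metric.ball t0 δ, θ t1 ≠ θ t0 := by
    by_contra hcon
    push Not at hcon
    have hZc : ∀ t ∈ Metric.ball t0 δ, Z t = Z t0 := by
      intro t ht
      rw [← hγ t (hδb t ht).2, ← hγ t0 ht0m, hcon t ht]
    have hf : ∃ᶠ z in 𝓝[≠] (t0 : ℂ), Z z = Z t0 := by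
      refine (AAY_tend t0).frequently (Eventually.frequently ?_)
      filter_upwards [nhdsWithin_le_nhds (Metric.ball_mem_nhds t0 hδ)] with t ht
      exact hZc t ht
    have hall : ∀ z, Z z = Z t0 := by
      intro z
      have hA : AnalyticOnNhd ℂ Z univ := fun w _ => hZd.analyticAt w
      have hC : AnalyticOnNhd ℂ (fun _ : ℂ => Z t0) univ := fun w _ => analyticAt_const
      exact hA.eqOn_of_preconnected_of_frequently_eq hC isPreconnected_univ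
        (mem_univ (t0 : ℂ)) hf (mem_univ z)
    apply ht0
    have h1 : Z = fun _ => Z t0 := funext hall
    unfold Wr
    rw [h1]
    simp
  -- an interval of values
  have hsub : uIcc t0 t1 ⊆ Metric.ball t0 δ := by
    have hc := convex_ball t0 δ
    rw [← segment_eq_uIcc]
    exact hc.segment_subset (Metric.mem_ball_self hδ) ht1
  have hcont : ContinuousOn θ (uIcc t0 t1) := hθ.mono fun t ht => (hδb t (hsub ht)).2
  have hiv := intermediate_value_uIcc hcont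
  have hlt : min (θ t0) (θ t1) < max (θ t0) (θ t1) := min_lt_max.2 (Ne.symm hne1)
  obtain ⟨s0, hs1, hs2⟩ := exists_between hlt
  refine ⟨s0, ?_⟩
  refine to_real hq ?_
  filter_upwards [Ioo_mem_nhds hs1 hs2] with s h1
  obtain ⟨t, ht, rfl⟩ := hiv (show s ∈ uIcc (θ t0) (θ t1) from ⟨h1.1.le, h1.2.le⟩)
  exact (hδb t (hsub ht)).1

/-- inner billiards -/
theorem inner_entire {γ : ℝ → ℂ} {ρ : ℝ → ℝ} (hOv : IsOval γ ρ) {K : ℝ → ℝ → ℝ} {ε : ℝ}
    (hε : 0 < ε) (hK : AnalyticOnNhd ℝ (Function.uncurry K) {z | |z.2 - sup (γ z.1) z.1| < ε})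
    (hrefl : ∀ s : ℝ, ∃ εs > 0, ∀ δ : ℝ, 0 < δ → δ < εs →
      K (s + δ) (sup (γ s) (s + δ)) = K (s - δ) (sup (γ s) (s - δ)))
    (hnc : ¬ ∃ c, ∀ φ p : ℝ, |p - sup (γ φ) φ| < ε → K φ p = c)
    {Z : ℂ → ℂ} {σ : ℝ} (hσ : 0 ≤ σ) (hσ1 : σ < 1)
    (hZd : Differentiable ℂ Z) (pZ : Per Z) (gZ : Gr σ Z)
    {θ : ℝ → ℝ} {x0 x1 : ℝ} (hθ : ContinuousOn θ (Ioo x0 x1))
    (hγ : ∀ t ∈ Ioo x0 x1, γ (θ t) = Z t)
    (hnt : ∃ s ∈ Ioo x0 x1, ∃ t ∈ Ioo x0 x1, γ (θ s) ≠ γ (θ t)) :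
    ∃ (c : ℂ) (a b d : ℝ), 0 < a ∧ 0 < a * d - b ^ 2 ∧
      Set.range γ = {x : ℂ | a * (x.re - c.re) ^ 2 + 2 * b * (x.re - c.re) * (x.im - c.im)
        + d * (x.im - c.im) ^ 2 = 1} := by
  let W : ℂ → ℂ := fun t => (starRingEnd ℂ) (Z ((starRingEnd ℂ) t))
  have hs : ∀ t, W t = (starRingEnd ℂ) (Z ((starRingEnd ℂ) t)) := fun t => rfl
  have hdW : Differentiable ℂ W := by
    have h1 : W = ((starRingEnd ℂ) ∘ Z ∘ (starRingEnd ℂ)) := rfl
    rw [h1]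
    intro t
    exact differentiableAt_conj_conj_iff.2 (hZd _)
  have hx : x0 < x1 := by
    obtain ⟨s, hs, -⟩ := hnt
    exact hs.1.trans hs.2
  have hreg : ∀ t0 : ℂ, (¬ ∀ᶠ t in 𝓝 t0, Wr Z W t = 0) ∧ Reg Z W t0 := by
    intro t0
    obtain ⟨r, hr⟩ : ∃ r : ℝ, r = |x0| + |x1| + ‖t0‖ + 1 := ⟨_, rfl⟩
    have a1 := abs_nonneg x0
    have a2 := abs_nonneg x1
    have a3 := norm_nonneg t0
    refine fin_flz γ ρ hOv K ε hε hK hrefl hnc 0 (fun _ => 0) (fun _ => r) (fun _ => Z)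
      (fun _ => W) ⟨fun i _ => hZd.differentiableOn, fun i _ => hdW.differentiableOn,
        fun i hi => absurd hi (Nat.not_lt_zero i), fun i hi => absurd hi (Nat.not_lt_zero i),
        fun i hi => absurd hi (Nat.not_lt_zero i)⟩ θ x0 x1 hθ ?_ hnt t0 ?_
    · intro t ht
      refine ⟨?_, (hγ t ht).symm, ?_⟩
      · rw [mem_ball_zero_iff, Complex.norm_real, Real.norm_eq_abs, abs_lt]
        have := neg_abs_le x0
        have := le_abs_self x1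
        exact ⟨by linarith [ht.1], by linarith [ht.2]⟩
      · show W t = _
        rw [hs, conj_ofReal, hγ t ht]
    · rw [mem_ball_zero_iff]
      linarith
  obtain ⟨s0, q, hq, hqQ⟩ := entire_arc hσ hσ1 hZd pZ gZ hs hx hθ hγ hreg
  exact inner_conic hOv hε hK hrefl hnc hq hqQ

/-- outer billiards -/
theorem outer_entire {γ : ℝ → ℂ} {ρ : ℝ → ℝ} (hOv : IsOval γ ρ) {K : ℝ → ℝ → ℝ}
    {U : Set (ℝ × ℝ)} (hK : OInt γ K U)
    {Z : ℂ → ℂ} {σ : ℝ} (hσ : 0 ≤ σ) (hσ1 : σ < 1)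
    (hZd : Differentiable ℂ Z) (pZ : Per Z) (gZ : Gr σ Z)
    {θ : ℝ → ℝ} {x0 x1 : ℝ} (hθ : ContinuousOn θ (Ioo x0 x1))
    (hγ : ∀ t ∈ Ioo x0 x1, γ (θ t) = Z t)
    (hnt : ∃ s ∈ Ioo x0 x1, ∃ t ∈ Ioo x0 x1, γ (θ s) ≠ γ (θ t)) :
    ∃ (c : ℂ) (a b d : ℝ), 0 < a ∧ 0 < a * d - b ^ 2 ∧
      Set.range γ = {x : ℂ | a * (x.re - c.re) ^ 2 + 2 * b * (x.re - c.re) * (x.im - c.im)
        + d * (x.im - c.im) ^ 2 = 1} ∧
      ∃ η > 0, ∀ l : ℝ, 1 ≤ l → l < 1 + η → ∃ κ : ℝ, ∀ x y : ℝ,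
        a * (x - c.re) ^ 2 + 2 * b * (x - c.re) * (y - c.im) + d * (y - c.im) ^ 2 = l →
          (x, y) ∈ U ∧ K x y = κ := by
  let W : ℂ → ℂ := fun t => (starRingEnd ℂ) (Z ((starRingEnd ℂ) t))
  have hs : ∀ t, W t = (starRingEnd ℂ) (Z ((starRingEnd ℂ) t)) := fun t => rfl
  have hdW : Differentiable ℂ W := by
    have h1 : W = ((starRingEnd ℂ) ∘ Z ∘ (starRingEnd ℂ)) := rfl
    rw [h1]
    intro t
    exact differentiableAt_conj_conj_iff.2 (hZd _)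
  have hx : x0 < x1 := by
    obtain ⟨s, hs, -⟩ := hnt
    exact hs.1.trans hs.2
  have hreg : ∀ t0 : ℂ, (¬ ∀ᶠ t in 𝓝 t0, Wr Z W t = 0) ∧ Reg Z W t0 := by
    intro t0
    obtain ⟨r, hr⟩ : ∃ r : ℝ, r = |x0| + |x1| + ‖t0‖ + 1 := ⟨_, rfl⟩
    have a1 := abs_nonneg x0
    have a2 := abs_nonneg x1
    have a3 := norm_nonneg t0
    refine fin_ofo γ ρ hOv K U hK 0 (fun _ => 0) (fun _ => r) (fun _ => Z)
      (fun _ => W) ⟨fun i _ => hZd.differentiableOn, fun i _ => hdW.differentiableOn,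
        fun i hi => absurd hi (Nat.not_lt_zero i), fun i hi => absurd hi (Nat.not_lt_zero i),
        fun i hi => absurd hi (Nat.not_lt_zero i)⟩ θ x0 x1 hθ ?_ hnt t0 ?_
    · intro t ht
      refine ⟨?_, (hγ t ht).symm, ?_⟩
      · rw [mem_ball_zero_iff, Complex.norm_real, Real.norm_eq_abs, abs_lt]
        have := neg_abs_le x0
        have := le_abs_self x1
        exact ⟨by linarith [ht.1], by linarith [ht.2]⟩
      · show W t = _
        rw [hs, conj_ofReal, hγ t ht]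
    · rw [mem_ball_zero_iff]
      linarith
  obtain ⟨s0, q, hq, hqQ⟩ := entire_arc hσ hσ1 hZd pZ gZ hs hx hθ hγ hreg
  obtain ⟨c, a, b, d, ha, hdet, hr⟩ := outer_conic hOv hK hq hqQ
  exact ⟨c, a, b, d, ha, hdet, hr, ellipse_leaves hOv hK ha hdet hr⟩

end Pool.Agent.V5helper83.AR
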