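import Mathlib

/-! Analytic functions of two variables with many zeros. -/

open Set Filter Topology

namespace Pool.Agent.V5helper83.AR

/-- iterated derivatives with respect to the first variable -/
noncomputable def Dn (D : ℝ × ℝ → ℝ) : ℕ → ℝ × ℝ → ℝ
  | 0 => D
  | n + 1 => fun p => fderiv ℝ (Dn D n) p (1, 0)

theorem dn_analytic {D : ℝ × ℝ → ℝ} {U : Set (ℝ × ℝ)} (hD : AnalyticOnNhd ℝ D U) (n : ℕ) :
    AnalyticOnNhd ℝ (Dn D n) U := by
  induction n with
  | zero => exact hD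
  | succ n ih =>
    intro p hp
    exact ((ContinuousLinearMap.apply ℝ ℝ ((1, 0) : ℝ × ℝ)).analyticAt _).comp (ih.fderiv p hp)

theorem dn_hasDeriv {D : ℝ × ℝ → ℝ} {U : Set (ℝ × ℝ)} (hD : AnalyticOnNhd ℝ D U) (n : ℕ)
    {x c : ℝ} (h : (x, c) ∈ U) : HasDerivAt (fun t => Dn D n (t, c)) (Dn D (n + 1) (x, c)) x := by
  have h1 : HasFDerivAt (Dn D n) (fderiv ℝ (Dn D n) (x, c)) (x, c) :=
    (dn_analytic hD n _ h).differentiableAt.hasFDerivAt
  have h2 : HasDerivAt (fun t : ℝ => ((t, c) : ℝ × ℝ)) ((1 : ℝ), (0 : ℝ)) x :=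
    (hasDerivAt_id x).prodMk (hasDerivAt_const x c)
  exact HasFDerivAt.comp_hasDerivAt x h1 h2

theorem mem_box {x0 c0 x c R : ℝ} : (x, c) ∈ Metric.ball (x0, c0) R ↔ |x - x0| < R ∧ |c - c0| < R := by
  rw [Metric.mem_ball, Prod.dist_eq, max_lt_iff, Real.dist_eq, Real.dist_eq]

/-- an analytic function of one variable which is flat from the right vanishes -/
theorem one_flat {g : ℝ → ℝ} {a : ℝ} (hg : AnalyticAt ℝ g a)
    (h : ∀ n : ℕ, ∃ M η' : ℝ, 0 < η' ∧ ∀ η, 0 < η → η < η' → |g (a + η)| ≤ M * (√η) ^ n) :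
    ∀ᶠ x in 𝓝 a, g x = 0 := by
  by_contra hcon
  obtain ⟨n, g1, hg1, hg0, he⟩ := (hg.exists_eventuallyEq_pow_smul_nonzero_iff).2 hcon
  obtain ⟨M, η', hη', hb⟩ := h (2 * n + 2)
  -- lower bound
  have hc : ContinuousAt (fun x => |g1 x|) a := hg1.continuousAt.abs
  have h0 : |g1 a| / 2 < |g1 a| := by
    have := abs_pos.2 hg0
    linarith
  obtain ⟨ε, hε, hball⟩ := Metric.eventually_nhds_iff.1 (he.and (hc.eventually_const_lt h0))
  have hg0' : 0 < |g1 a| / 2 := by
    have := abs_pos.2 hg0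
    linarith
  set M' := |M| + 1 with hM'
  have hM'0 : 0 < M' := by positivity
  set η := min (min (ε / 2) (η' / 2)) (|g1 a| / 2 / (2 * M')) with hηdef
  have hη0 : 0 < η := by positivity
  have h1 : η < ε := lt_of_le_of_lt ((min_le_left _ _).trans (min_le_left _ _)) (by linarith)
  have h2 : η < η' := lt_of_le_of_lt ((min_le_left _ _).trans (min_le_right _ _)) (by linarith)
  have h3 : η ≤ |g1 a| / 2 / (2 * M') := min_le_right _ _
  obtain ⟨e1, e2⟩ := hball (y := a + η) (by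
    rw [Real.dist_eq, add_sub_cancel_left, abs_of_pos hη0]
    exact h1)
  have h4 := hb η hη0 h2
  rw [e1, add_sub_cancel_left, smul_eq_mul, abs_mul, abs_pow, abs_of_pos hη0] at h4
  have h5 : (√η) ^ (2 * n + 2) = η ^ n * η := by
    rw [show 2 * n + 2 = 2 * (n + 1) by ring, pow_mul, Real.sq_sqrt hη0.le, pow_succ]
  rw [h5] at h4
  have h6 : 0 < η ^ n := by positivity
  have h7 : |g1 (a + η)| ≤ M * η := by
    have : η ^ n * |g1 (a + η)| ≤ η ^ n * (M * η) := by
      calc η ^ n * |g1 (a + η)| ≤ M * (η ^ n * η) := h4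
        _ = η ^ n * (M * η) := by ring
    exact le_of_mul_le_mul_left this h6
  have h8 : M * η ≤ M' * η := by
    apply mul_le_mul_of_nonneg_right _ hη0.le
    have := le_abs_self M
    linarith
  have h9 : M' * η ≤ |g1 a| / 2 / 2 := by
    calc M' * η ≤ M' * (|g1 a| / 2 / (2 * M')) := mul_le_mul_of_nonneg_left h3 hM'0.le
      _ = |g1 a| / 2 / 2 := by field_simp
  linarith

section
variable {D : ℝ × ℝ → ℝ} {x0 c0 C r η0 : ℝ}

/-- many zeros of all derivatives -/
theorem zeros (hC : 0 < C) (hη0 : 0 < η0) (hD : AnalyticOnNhd ℝ D (Metric.ball (x0, c0) r))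
    (hη0r : η0 ≤ r)
    (h : ∀ t, |t - x0| < r → ∀ η, 0 < η → η < η0 → ∃ z, |z - t| ≤ C * √η ∧ D (z, c0 + η) = 0)
    (k : ℕ) : ∀ r', r' < r → ∃ Ck > 0, ∃ ηk > 0, ηk ≤ η0 ∧ ∀ t, |t - x0| < r' → ∀ η, 0 < η →
      η < ηk → ∃ z, |z - t| ≤ Ck * √η ∧ |z - x0| < r ∧ Dn D k (z, c0 + η) = 0 := by
  induction k with
  | zero =>
    intro r' hr'
    obtain ⟨η1, hη1, hη1'⟩ : ∃ η1 > 0, ∀ η, 0 < η → η < η1 → C * √η < r - r' := by
      refine ⟨((r - r') / C) ^ 2, by
        have : 0 < (r - r') / C := div_pos (by linarith) hC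
        positivity, fun η _ h2 => ?_⟩
      have h3 : √η < (r - r') / C := by
        rw [Real.sqrt_lt' (div_pos (by linarith) hC)]
        exact h2
      rw [lt_div_iff₀ hC] at h3
      linarith
    refine ⟨C, hC, min η0 η1, lt_min hη0 hη1, min_le_left _ _, fun t ht η h1 h2 => ?_⟩
    obtain ⟨z, hz, hz0⟩ := h t (by linarith) η h1 (h2.trans_le (min_le_left _ _))
    refine ⟨z, hz, ?_, hz0⟩
    have h3 := hη1' η h1 (h2.trans_le (min_le_right _ _))
    have h4 : |z - x0| ≤ |z - t| + |t - x0| := by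
      have := abs_add_le (z - t) (t - x0)
      rwa [sub_add_sub_cancel] at this
    linarith
  | succ k ih =>
    intro r' hr'
    obtain ⟨Ck, hCk, ηk, hηk, hηk0, hk⟩ := ih ((r' + r) / 2) (by linarith)
    obtain ⟨η1, hη1, hη1'⟩ : ∃ η1 > 0, ∀ η, 0 < η → η < η1 → 3 * Ck * √η < (r - r') / 2 := by
      refine ⟨((r - r') / 2 / (3 * Ck)) ^ 2, by
        have : 0 < (r - r') / 2 / (3 * Ck) := div_pos (by linarith) (by positivity)
        positivity, fun η _ h2 => ?_⟩
      have h3 : √η < (r - r') / 2 / (3 * Ck) := by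
        rw [Real.sqrt_lt' (div_pos (by linarith) (by positivity))]
        exact h2
      rw [lt_div_iff₀ (by positivity)] at h3
      linarith
    refine ⟨3 * Ck, by positivity, min ηk η1, lt_min hηk hη1, (min_le_left _ _).trans hηk0,
      fun t ht η h1 h2 => ?_⟩
    have h3 := hη1' η h1 (h2.trans_le (min_le_right _ _))
    have hs : 0 < √η := Real.sqrt_pos.2 h1
    set c := Ck * √η with hc
    have hc0 : 0 < c := mul_pos hCk hs
    have h3' : 3 * c < (r - r') / 2 := by
      rw [hc]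
      linarith
    rw [abs_lt] at ht
    obtain ⟨z1, hz1, -, hz1'⟩ := hk (t - 2 * c) (by rw [abs_lt]; constructor <;> linarith) η h1
      (h2.trans_le (min_le_left _ _))
    obtain ⟨z2, hz2, -, hz2'⟩ := hk (t + 2 * c) (by rw [abs_lt]; constructor <;> linarith) η h1
      (h2.trans_le (min_le_left _ _))
    rw [← hc, abs_le] at hz1 hz2
    have hη : η < r := (h2.trans_le (min_le_left _ _)).trans_le (hηk0.trans hη0r)
    have hmem : ∀ x ∈ Icc z1 z2, (x, c0 + η) ∈ Metric.ball (x0, c0) r := by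
      rintro x ⟨hx1, hx2⟩
      rw [mem_box, add_sub_cancel_left, abs_of_pos h1, abs_lt]
      exact ⟨⟨by linarith, by linarith⟩, hη⟩
    obtain ⟨z, hz, hz0⟩ := exists_hasDerivAt_eq_zero (f := fun x => Dn D k (x, c0 + η))
      (f' := fun x => Dn D (k + 1) (x, c0 + η)) (show z1 < z2 by linarith)
      (fun x hx => (dn_hasDeriv hD k (hmem x hx)).continuousAt.continuousWithinAt)
      (by simp only [hz1', hz2']) fun x hx => dn_hasDeriv hD k (hmem x ⟨hx.1.le, hx.2.le⟩)
    refine ⟨z, ?_, ?_, hz0⟩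
    · rw [abs_le, mul_assoc, ← hc]
      constructor <;> linarith [hz.1, hz.2]
    · rw [abs_lt]
      constructor <;> linarith [hz.1, hz.2]

/-- flatness -/
theorem bounds (hC : 0 < C) (hη0 : 0 < η0) (hD : AnalyticOnNhd ℝ D (Metric.ball (x0, c0) r))
    (hη0r : η0 ≤ r)
    (h : ∀ t, |t - x0| < r → ∀ η, 0 < η → η < η0 → ∃ z, |z - t| ≤ C * √η ∧ D (z, c0 + η) = 0)
    (n : ℕ) : ∀ k r', 0 < r' → r' < r → ∃ M η' : ℝ, 0 < η' ∧ 0 ≤ M ∧ η' ≤ r' ∧
      ∀ t, |t - x0| < r' → ∀ η, 0 < η → η < η' → |Dn D k (t, c0 + η)| ≤ M * (√η) ^ n := by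
  induction n with
  | zero =>
    intro k r' hr0 hr'
    have hsub : Metric.closedBall (x0, c0) r' ⊆ Metric.ball (x0, c0) r :=
      Metric.closedBall_subset_ball hr'
    obtain ⟨M, hM⟩ := (isCompact_closedBall (x0, c0) r').exists_bound_of_continuousOn
      ((dn_analytic hD k).continuousOn.mono hsub)
    refine ⟨|M|, r', hr0, abs_nonneg _, le_rfl, fun t ht η h1 h2 => ?_⟩
    have h3 := hM (t, c0 + η) (Metric.ball_subset_closedBall (by
      rw [mem_box, add_sub_cancel_left, abs_of_pos h1]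
      exact ⟨ht, h2⟩))
    rw [Real.norm_eq_abs] at h3
    rw [pow_zero, mul_one]
    exact h3.trans (le_abs_self M)
  | succ n ih =>
    intro k r' hr0 hr'
    obtain ⟨M, η1, hη1, hM, hη1r, hb⟩ := ih (k + 1) ((r' + r) / 2) (by linarith) (by linarith)
    obtain ⟨Ck, hCk, ηk, hηk, -, hk⟩ := zeros hC hη0 hD hη0r h k r' hr'
    obtain ⟨η2, hη2, hη2'⟩ : ∃ η2 > 0, ∀ η, 0 < η → η < η2 → Ck * √η < (r - r') / 2 := by
      refine ⟨((r - r') / 2 / Ck) ^ 2, by
        have : 0 < (r - r') / 2 / Ck := div_pos (by linarith) hCk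
        positivity, fun η _ h2 => ?_⟩
      have h3 : √η < (r - r') / 2 / Ck := by
        rw [Real.sqrt_lt' (div_pos (by linarith) hCk)]
        exact h2
      rw [lt_div_iff₀ hCk] at h3
      linarith
    refine ⟨M * Ck, min (min η1 ηk) (min η2 r'), by positivity, by positivity,
      (min_le_right _ _).trans (min_le_right _ _), fun t ht η h1 h2 => ?_⟩
    have g1 : η < η1 := h2.trans_le ((min_le_left _ _).trans (min_le_left _ _))
    have g2 : η < ηk := h2.trans_le ((min_le_left _ _).trans (min_le_right _ _))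
    have g3 : η < η2 := h2.trans_le ((min_le_right _ _).trans (min_le_left _ _))
    obtain ⟨z, hz, -, hz0⟩ := hk t ht η h1 g2
    have h3 := hη2' η h1 g3
    have hη : η < r := g1.trans_le (hη1r.trans (by linarith))
    -- mean value
    have hconv : Convex ℝ (Metric.ball x0 ((r' + r) / 2)) := convex_ball _ _
    have hzm : z ∈ Metric.ball x0 ((r' + r) / 2) := by
      rw [Metric.mem_ball, Real.dist_eq]
      have h4 : |z - x0| ≤ |z - t| + |t - x0| := by
        have := abs_add_le (z - t) (t - x0)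
        rwa [sub_add_sub_cancel] at this
      linarith
    have htm : t ∈ Metric.ball x0 ((r' + r) / 2) := by
      rw [Metric.mem_ball, Real.dist_eq]
      linarith
    have hmv := hconv.norm_image_sub_le_of_norm_hasDerivWithin_le
      (f := fun x => Dn D k (x, c0 + η)) (f' := fun x => Dn D (k + 1) (x, c0 + η))
      (C := M * (√η) ^ n) (fun x hx => by
        rw [Metric.mem_ball, Real.dist_eq] at hx
        refine (dn_hasDeriv hD k ?_).hasDerivWithinAt
        rw [mem_box, add_sub_cancel_left, abs_of_pos h1]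
        exact ⟨by linarith, hη⟩) (fun x hx => by
        rw [Metric.mem_ball, Real.dist_eq] at hx
        rw [Real.norm_eq_abs]
        exact hb x hx η h1 g1) hzm htm
    simp only [hz0, sub_zero, Real.norm_eq_abs] at hmv
    rw [abs_sub_comm z t] at hz
    calc |Dn D k (t, c0 + η)| ≤ M * (√η) ^ n * |t - z| := hmv
      _ ≤ M * (√η) ^ n * (Ck * √η) := by gcongr
      _ = M * Ck * (√η) ^ (n + 1) := by ring

end

/-- an analytic function of two variables which has many zeros vanishes -/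
theorem flat {D : ℝ × ℝ → ℝ} {x0 c0 : ℝ} (hD : AnalyticAt ℝ D (x0, c0)) {C : ℝ} (hC : 0 < C)
    {r η0 : ℝ} (hr : 0 < r) (hη0 : 0 < η0)
    (h : ∀ t, |t - x0| < r → ∀ η, 0 < η → η < η0 → ∃ z, |z - t| ≤ C * √η ∧ D (z, c0 + η) = 0) :
    ∀ᶠ p in 𝓝 (x0, c0), D p = 0 := by
  obtain ⟨R, hR, hRb⟩ := Metric.eventually_nhds_iff_ball.1 hD.eventually_analyticAt
  set r1 := min r R with hr1
  have hr10 : 0 < r1 := lt_min hr hR
  have hD1 : AnalyticOnNhd ℝ D (Metric.ball (x0, c0) r1) := fun p hp =>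
    hRb p (Metric.ball_subset_ball (min_le_right _ _) hp)
  have hb := bounds (r := r1) (η0 := min η0 r1) hC (lt_min hη0 hr10) hD1 (min_le_right _ _)
    (fun t ht η h1 h2 => h t (ht.trans_le (min_le_left _ _)) η h1 (h2.trans_le (min_le_left _ _)))
  -- each slice vanishes
  have hslice : ∀ t, |t - x0| < r1 → ∀ c, |c - c0| < r1 → D (t, c) = 0 := by
    intro t ht
    have hg : ∀ c ∈ Metric.ball c0 r1, AnalyticAt ℝ (fun c => D (t, c)) c := by
      intro c hc
      rw [Metric.mem_ball, Real.dist_eq] at hc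
      have h1 : AnalyticAt ℝ D (t, c) := hD1 _ (mem_box.2 ⟨ht, hc⟩)
      exact h1.comp (analyticAt_const.prod analyticAt_id)
    have h0 : ∀ᶠ c in 𝓝 c0, (fun c => D (t, c)) c = 0 := by
      refine one_flat (hg c0 (Metric.mem_ball_self hr10)) fun n => ?_
      obtain ⟨M, η', h1, -, -, h3⟩ := hb n 0 ((|t - x0| + r1) / 2) (by positivity) (by linarith)
      exact ⟨M, η', h1, fun η h4 h5 => h3 t (by linarith) η h4 h5⟩
    have h1 := AnalyticOnNhd.eqOn_zero_of_preconnected_of_eventuallyEq_zero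
      (f := fun c => D (t, c)) hg (convex_ball c0 r1).isPreconnected
      (Metric.mem_ball_self hr10) h0
    intro c hc
    exact h1 (by rw [Metric.mem_ball, Real.dist_eq]; exact hc)
  filter_upwards [Metric.ball_mem_nhds (x0, c0) hr10] with p hp
  obtain ⟨t, c⟩ := p
  rw [mem_box] at hp
  exact hslice t hp.1 c hp.2

end Pool.Agent.V5helper83.AR
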