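import Pool.Agent.V5helper83.AR.Dual

/-! Inner billiards: near an arc of a conic the integral is a function of the integral of the
conic. -/

open Complex Set Filter Topology

namespace Pool.Agent.V5helper83.AR

open H738CZ

/-- the lines near the tangent lines of the boundary -/
def strip (γ : ℝ → ℂ) (ε : ℝ) : Set (ℝ × ℝ) := {z | |z.2 - sup (γ z.1) z.1| < ε}

/-- the line through `γ s` with normal angle `s + δ` -/
noncomputable def lin (γ : ℝ → ℂ) (s δ : ℝ) : ℝ × ℝ := (s + δ, sup (γ s) (s + δ))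

section oval
variable {γ : ℝ → ℂ} {ρ : ℝ → ℝ} (hOv : IsOval γ ρ)
include hOv

theorem cont_re : Continuous fun s => (γ s).re :=
  continuous_iff_continuousAt.2 fun s => (der_re hOv s).continuousAt

theorem cont_im : Continuous fun s => (γ s).im :=
  continuous_iff_continuousAt.2 fun s => (der_im hOv s).continuousAt

theorem cont_sup : Continuous fun s => sup (γ s) s := by
  have h1 := cont_re hOv
  have h2 := cont_im hOv
  simp only [sup_eq]
  fun_prop

theorem cont_lin : Continuous fun z : ℝ × ℝ => lin γ z.1 z.2 := by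
  have h1 := cont_re hOv
  have h2 := cont_im hOv
  have h3 : Continuous fun z : ℝ × ℝ => z.1 + z.2 := continuous_fst.add continuous_snd
  unfold lin
  simp only [sup_eq]
  exact h3.prodMk (((h1.comp continuous_fst).mul (Real.continuous_cos.comp h3)).add
    ((h2.comp continuous_fst).mul (Real.continuous_sin.comp h3)))

theorem strip_open (ε : ℝ) : IsOpen (strip γ ε) := by
  have h1 := cont_sup hOv
  have h2 : Continuous fun z : ℝ × ℝ => |z.2 - sup (γ z.1) z.1| :=
    (continuous_snd.sub (h1.comp continuous_fst)).abs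
  exact isOpen_lt h2 continuous_const

theorem strip_conn (ε : ℝ) : IsPreconnected (strip γ ε) := by
  have h1 := cont_sup hOv
  have h2 : strip γ ε = (fun z : ℝ × ℝ => (z.1, sup (γ z.1) z.1 + z.2)) ''
      ((univ : Set ℝ) ×ˢ Metric.ball (0 : ℝ) ε) := by
    ext ⟨φ, p⟩
    constructor
    · intro h
      refine ⟨(φ, p - sup (γ φ) φ), ⟨trivial, ?_⟩, ?_⟩
      · rw [mem_ball_zero_iff]
        exact h
      · simp
    · rintro ⟨⟨φ', u⟩, ⟨-, hu⟩, h⟩
      rw [mem_ball_zero_iff] at hu
      simp only [Prod.mk.injEq] at h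
      obtain ⟨rfl, rfl⟩ := h
      show |sup (γ φ') φ' + u - sup (γ φ') φ'| < ε
      rw [add_sub_cancel_left]
      exact hu
  rw [h2]
  refine (isPreconnected_univ.prod (convex_ball (0 : ℝ) ε).isPreconnected).image _ ?_
  exact (continuous_fst.prodMk ((h1.comp continuous_fst).add continuous_snd)).continuousOn

omit hOv in
theorem strip_mem {ε : ℝ} (hε : 0 < ε) (s : ℝ) : (s, sup (γ s) s) ∈ strip γ ε := by
  show |sup (γ s) s - sup (γ s) s| < ε
  rw [sub_self, abs_zero]
  exact hε

omit hOv in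
theorem lin_analytic (s δ : ℝ) : AnalyticAt ℝ (fun δ => lin γ s δ) δ := by
  unfold lin
  simp only [sup_eq]
  have h0 : AnalyticAt ℝ (fun δ : ℝ => s + δ) δ := by fun_prop
  have h1 : AnalyticAt ℝ (fun δ : ℝ => Real.cos (s + δ)) δ := Real.analyticAt_cos.comp h0
  have h2 : AnalyticAt ℝ (fun δ : ℝ => Real.sin (s + δ)) δ := Real.analyticAt_sin.comp h0
  exact h0.prod ((analyticAt_const.mul h1).add (analyticAt_const.mul h2))

/-- a box on which the lines stay in an open set -/
theorem box {V : Set (ℝ × ℝ)} {t0 : ℝ} (hV : V ∈ 𝓝 ((t0, sup (γ t0) t0) : ℝ × ℝ)) :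
    ∃ r > 0, ∀ s, |s - t0| < r → ∀ δ, |δ| < r → lin γ s δ ∈ V := by
  have h1 : lin γ t0 0 = (t0, sup (γ t0) t0) := by simp [lin]
  have h2 := (cont_lin hOv).continuousAt (x := ((t0, 0) : ℝ × ℝ)) (by
    show V ∈ 𝓝 (lin γ t0 0)
    rw [h1]
    exact hV)
  obtain ⟨r, hr, hb⟩ := Metric.mem_nhds_iff.1 h2
  refine ⟨r, hr, fun s hs δ hδ => ?_⟩
  exact hb (mem_box.2 ⟨hs, by rwa [sub_zero]⟩)

variable {K : ℝ → ℝ → ℝ} {ε : ℝ} (hε : 0 < ε)
  (hK : AnalyticOnNhd ℝ (Function.uncurry K) (strip γ ε))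
  (hrefl : ∀ s : ℝ, ∃ εs > 0, ∀ δ : ℝ, 0 < δ → δ < εs →
    K (s + δ) (sup (γ s) (s + δ)) = K (s - δ) (sup (γ s) (s - δ)))
include hε hK hrefl

/-- the invariance holds uniformly -/
theorem uni (t0 : ℝ) : ∃ r > 0, ∀ s, |s - t0| < r → ∀ δ, |δ| < r →
    lin γ s δ ∈ strip γ ε ∧ Function.uncurry K (lin γ s δ) = Function.uncurry K (lin γ s (-δ)) := by
  obtain ⟨r, hr, hb⟩ := box hOv ((strip_open hOv ε).mem_nhds (strip_mem hε t0))
  refine ⟨r, hr, fun s hs δ hδ => ⟨hb s hs δ hδ, ?_⟩⟩
  have hana : ∀ δ ∈ Metric.ball (0 : ℝ) r, AnalyticAt ℝ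
      (fun δ => Function.uncurry K (lin γ s δ) - Function.uncurry K (lin γ s (-δ))) δ := by
    intro δ hδ
    rw [mem_ball_zero_iff, Real.norm_eq_abs] at hδ
    have h1 : AnalyticAt ℝ (fun δ => Function.uncurry K (lin γ s δ)) δ :=
      (hK _ (hb s hs δ hδ)).comp (lin_analytic s δ)
    have h2 : AnalyticAt ℝ (fun δ => Function.uncurry K (lin γ s δ)) (-δ) :=
      (hK _ (hb s hs (-δ) (by rwa [abs_neg]))).comp (lin_analytic s (-δ))
    exact h1.sub (h2.comp (f := fun δ : ℝ => -δ) analyticAt_id.neg)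
  have hfr : ∃ᶠ δ in 𝓝[≠] (0 : ℝ),
      (fun δ => Function.uncurry K (lin γ s δ) - Function.uncurry K (lin γ s (-δ))) δ = 0 := by
    obtain ⟨εs, hεs, h⟩ := hrefl s
    have h1 : ∀ᶠ δ in 𝓝[>] (0 : ℝ),
        (fun δ => Function.uncurry K (lin γ s δ) - Function.uncurry K (lin γ s (-δ))) δ = 0 := by
      filter_upwards [Ioo_mem_nhdsGT hεs] with δ hδ
      have := h δ hδ.1 hδ.2
      show Function.uncurry K (lin γ s δ) - Function.uncurry K (lin γ s (-δ)) = 0
      unfold lin Function.uncurry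
      simp only
      rw [← sub_eq_add_neg, this, sub_self]
    exact h1.frequently.filter_mono (nhdsWithin_mono _ fun x hx => (ne_of_gt hx : x ≠ 0))
  have h2 := AnalyticOnNhd.eqOn_zero_of_preconnected_of_frequently_eq_zero
    (f := fun δ => Function.uncurry K (lin γ s δ) - Function.uncurry K (lin γ s (-δ)))
    hana (convex_ball (0 : ℝ) r).isPreconnected (Metric.mem_ball_self hr) hfr
  have h3 := h2 (show δ ∈ Metric.ball (0 : ℝ) r by
    rw [mem_ball_zero_iff, Real.norm_eq_abs]
    exact hδ)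
  exact sub_eq_zero.1 h3

/-- the integral is constant on the tangent lines of the boundary -/
theorem K_const (s : ℝ) : Function.uncurry K (s, sup (γ s) s) =
    Function.uncurry K (0, sup (γ 0) 0) := by
  have hder : ∀ s, HasDerivAt (fun s => Function.uncurry K (s, sup (γ s) s)) 0 s := by
    intro s
    have hKs : HasFDerivAt (Function.uncurry K) (fderiv ℝ (Function.uncurry K) (s, sup (γ s) s))
        (s, sup (γ s) s) := (hK _ (strip_mem hε s)).differentiableAt.hasFDerivAt
    set v := fderiv ℝ (Function.uncurry K) (s, sup (γ s) s)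
      (1, -((γ s).re * Real.sin s) + (γ s).im * Real.cos s) with hv
    have h1 : HasDerivAt (fun s => Function.uncurry K (s, sup (γ s) s)) v s := by
      have h2 : HasDerivAt (fun s : ℝ => ((s, sup (γ s) s) : ℝ × ℝ))
          ((1 : ℝ), -((γ s).re * Real.sin s) + (γ s).im * Real.cos s) s := by
        have h3 := der_sup hOv s
        simp only [sup_eq]
        exact (hasDerivAt_id s).prodMk h3
      exact HasFDerivAt.comp_hasDerivAt s hKs h2
    have h4 : HasDerivAt (fun δ => Function.uncurry K (lin γ s δ)) v 0 := by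
      have h5 : HasDerivAt (fun δ : ℝ => s + δ) 1 (0 : ℝ) := (hasDerivAt_id (0 : ℝ)).const_add s
      have h5c : HasDerivAt (fun δ : ℝ => Real.cos (s + δ)) (-Real.sin (s + 0) * 1) (0 : ℝ) :=
        (Real.hasDerivAt_cos (s + 0)).comp (0 : ℝ) h5
      have h5s : HasDerivAt (fun δ : ℝ => Real.sin (s + δ)) (Real.cos (s + 0) * 1) (0 : ℝ) :=
        (Real.hasDerivAt_sin (s + 0)).comp (0 : ℝ) h5
      have h6 : HasDerivAt (fun δ : ℝ => lin γ s δ)
          ((1 : ℝ), -((γ s).re * Real.sin s) + (γ s).im * Real.cos s) 0 := by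
        unfold lin
        simp only [sup_eq]
        refine h5.prodMk ?_
        refine ((h5c.const_mul (γ s).re).add (h5s.const_mul (γ s).im)).congr_deriv ?_
        rw [add_zero]
        ring
      have h7 : HasFDerivAt (Function.uncurry K)
          (fderiv ℝ (Function.uncurry K) (s, sup (γ s) s)) (lin γ s 0) := by
        have : lin γ s 0 = (s, sup (γ s) s) := by simp [lin]
        rw [this]
        exact hKs
      exact HasFDerivAt.comp_hasDerivAt (0 : ℝ) h7 h6
    have h8 : HasDerivAt (fun δ => Function.uncurry K (lin γ s (-δ))) (v * (-1)) 0 := by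
      have h9 : HasDerivAt (fun δ => Function.uncurry K (lin γ s δ)) v (-0) := by
        rw [neg_zero]
        exact h4
      exact h9.comp (0 : ℝ) (hasDerivAt_neg (0 : ℝ))
    obtain ⟨r, hr, hu⟩ := uni hOv hε hK hrefl s
    have h10 : HasDerivAt (fun δ => Function.uncurry K (lin γ s δ)) (v * (-1)) 0 := by
      refine h8.congr_of_eventuallyEq ?_
      filter_upwards [Metric.ball_mem_nhds (0 : ℝ) hr] with δ hδ
      rw [mem_ball_zero_iff, Real.norm_eq_abs] at hδ
      exact (hu s (by rw [sub_self, abs_zero]; exact hr) δ hδ).2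
    have h11 := h4.unique h10
    have h12 : v = 0 := by linarith
    rw [h12] at h1
    exact h1
  exact is_const_of_deriv_eq_zero (fun s => (hder s).differentiableAt) (fun s => (hder s).deriv) s 0

/-- near an arc of a conic the integral depends on the integral of the conic -/
theorem inner_dep (q : Cf) (hΔ : q.Δ ≠ 0) {t0 : ℝ}
    (h : ∀ᶠ s in 𝓝 t0, q.Q (γ s).re (γ s).im = 0) :
    Dep (Function.uncurry K) q.H (t0, sup (γ t0) t0) ∧
      ∀ᶠ s in 𝓝 t0, q.H (s, sup (γ s) s) = 0 := by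
  have hdat := arc_data hOv q hΔ h
  have hz : ∀ᶠ s in 𝓝 t0, q.H (s, sup (γ s) s) = 0 := by
    filter_upwards [hdat] with s hs
    rw [hs.1 s, sub_self, Real.sin_zero]
    ring
  refine ⟨?_, hz⟩
  obtain ⟨-, hμ0, hd⟩ := hdat.self_of_nhds
  have hHP : q.H (t0, sup (γ t0) t0) = 0 := hz.self_of_nhds
  set μ : ℝ → ℝ := fun s => q.G1 (γ s).re (γ s).im * Real.cos s +
      q.G2 (γ s).re (γ s).im * Real.sin s with hμdef
  have hμc : Continuous μ := by
    have h1 := cont_re hOv
    have h2 := cont_im hOv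
    rw [hμdef]
    unfold Cf.G1 Cf.G2
    fun_prop
  have hμt : 0 < |μ t0| := abs_pos.2 hμ0
  set κ := |μ t0| / 2 with hκ
  have hκ0 : 0 < κ := by positivity
  have hκμ : ∀ᶠ s in 𝓝 t0, κ < |μ s| :=
    hμc.abs.continuousAt.eventually_const_lt (by linarith)
  obtain ⟨r1, hr1, hev⟩ := Metric.eventually_nhds_iff.1 (hdat.and hκμ)
  obtain ⟨r2, hr2, hu⟩ := uni hOv hε hK hrefl t0
  have hπ := Real.pi_pos
  refine dep_of_chords (C := Real.pi / 2 / κ) (hK _ (strip_mem hε t0)) (q.H_analytic _) hd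
    (by positivity) fun V hV => ?_
  obtain ⟨r3, hr3, hbox⟩ := box hOv hV
  set m := min (min r2 r3) 1 with hm
  have hm0 : 0 < m := by positivity
  refine ⟨min r1 (min r2 r3), by positivity, (min (κ / 2) (m / (Real.pi / 2 / κ))) ^ 2,
    by positivity, fun t ht η hη1 hη2 => ?_⟩
  have hsη : 0 < √η := Real.sqrt_pos.2 hη1
  have hsη2 : √η < min (κ / 2) (m / (Real.pi / 2 / κ)) := by
    rw [Real.sqrt_lt' (by positivity)]
    exact hη2
  have a1 : √η < κ := by
    have := hsη2.trans_le (min_le_left _ _)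
    linarith
  have a2 : Real.pi / 2 / κ * √η < m := by
    have := hsη2.trans_le (min_le_right _ _)
    rw [lt_div_iff₀ (by positivity)] at this
    linarith
  obtain ⟨⟨d1, d2, -⟩, d4⟩ := hev (y := t) (by
    rw [Real.dist_eq]
    exact ht.trans_le (min_le_left _ _))
  have hμt' : 0 < |μ t| := hκ0.trans d4
  set u := √η / |μ t| with hu'
  have hu0 : 0 < u := by positivity
  have hu1 : u < 1 := by
    rw [hu', div_lt_one hμt']
    linarith
  have huκ : u ≤ √η / κ := div_le_div_of_nonneg_left hsη.le hκ0 d4.le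
  set δ := Real.arcsin u with hδ
  have hsin : Real.sin δ = u := Real.sin_arcsin (by linarith) hu1.le
  have hδ0 : 0 < δ := Real.arcsin_pos.2 hu0
  have hδ1 : δ ≤ Real.pi / 2 := Real.arcsin_le_pi_div_two u
  have hδC : δ ≤ Real.pi / 2 / κ * √η := by
    have h1 := Real.mul_le_sin hδ0.le hδ1
    rw [hsin] at h1
    have h2 : δ ≤ Real.pi / 2 * u := by
      have h3 : Real.pi / 2 * (2 / Real.pi * δ) ≤ Real.pi / 2 * u :=
        mul_le_mul_of_nonneg_left h1 (by positivity)
      have h4 : Real.pi / 2 * (2 / Real.pi * δ) = δ := by field_simp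
      linarith
    calc δ ≤ Real.pi / 2 * u := h2
      _ ≤ Real.pi / 2 * (√η / κ) := by gcongr
      _ = Real.pi / 2 / κ * √η := by ring
  have hδm : δ < m := hδC.trans_lt a2
  have hδ2 : |δ| < r2 := by
    rw [abs_of_pos hδ0]
    exact hδm.trans_le ((min_le_left _ _).trans (min_le_left _ _))
  have hδ3 : |δ| < r3 := by
    rw [abs_of_pos hδ0]
    exact hδm.trans_le ((min_le_left _ _).trans (min_le_right _ _))
  have ht2 : |t - t0| < r2 := ht.trans_le ((min_le_right _ _).trans (min_le_left _ _))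
  have ht3 : |t - t0| < r3 := ht.trans_le ((min_le_right _ _).trans (min_le_right _ _))
  have hval : μ t ^ 2 * u ^ 2 = η := by
    rw [hu', div_pow, Real.sq_sqrt hη1.le, sq_abs]
    have : μ t ^ 2 ≠ 0 := by
      have := abs_pos.1 hμt'
      positivity
    rw [← mul_div_assoc, mul_comm, mul_div_assoc, div_self this, mul_one]
  refine ⟨lin γ t (-δ), hbox t ht3 (-δ) (by rwa [abs_neg]), lin γ t δ, hbox t ht3 δ hδ3,
    ?_, ?_, ?_, ?_, ?_, ?_⟩
  · show t + -δ < t + δ
    linarith
  · show |t + -δ - t| ≤ _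
    rw [show t + -δ - t = -δ by ring, abs_neg, abs_of_pos hδ0]
    exact hδC
  · show |t + δ - t| ≤ _
    rw [add_sub_cancel_left, abs_of_pos hδ0]
    exact hδC
  · rw [hHP, zero_add]
    unfold lin
    rw [d1 (t + -δ), show t + -δ - t = -δ by ring, Real.sin_neg, hsin, neg_sq]
    exact hval
  · rw [hHP, zero_add]
    unfold lin
    rw [d1 (t + δ), add_sub_cancel_left, hsin]
    exact hval
  · exact ((hu t ht2 δ hδ2).2).symm

end oval

end Pool.Agent.V5helper83.AR
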