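import Pool.Agent.H719R4.FZ.Fin7

/-! An algebraic arc of the boundary of an integrable billiard lies on a conic (local versions of
AS2 and AAY). -/

open Complex Set Filter Topology Polynomial

open scoped Polynomial.Bivariate

namespace Pool.Agent.V5helper83.AR

open H738CZ H719FX

/-- an algebraic arc is analytic at some point (adapted from AS2) -/
theorem arc_analytic {γ : ℝ → ℂ} {ρ : ℝ → ℝ} (hγ : IsOval γ ρ) {A : ℂ[X][Y]} (hA : A ≠ 0)
    {α β : ℝ} (hαβ : α < β)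
    (hAγ : ∀ s ∈ Ioo α β, A.evalEval (γ s) ((starRingEnd ℂ) (γ s)) = 0) :
    ∃ s0 ∈ Ioo α β, AnalyticAt ℝ γ s0 := by
  classical
  -- minimal degree
  have hex : ∃ n : ℕ, ∃ A1 : ℂ[X][Y], A1 ≠ 0 ∧ A1.natDegree = n ∧ ∃ a b : ℝ, a < b ∧ α ≤ a ∧
      b ≤ β ∧ ∀ s ∈ Ioo a b, A1.evalEval (γ s) ((starRingEnd ℂ) (γ s)) = 0 :=
    ⟨_, A, hA, rfl, α, β, hαβ, le_rfl, le_rfl, fun s hs => hAγ s hs⟩
  obtain ⟨A1, hA1, hdeg, a, b, hab, hαa, hbβ, h1⟩ := Nat.find_spec hex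
  have hmin := fun m (hm : m < Nat.find hex) => Nat.find_min hex hm
  rcases Nat.eq_zero_or_pos (Nat.find hex) with hz | hpos
  · exact (AS2_zero γ ρ hγ A1 hA1 (hdeg.trans hz) a b hab h1).elim
  have hd0 : A1.natDegree ≠ 0 := by omega
  have hdne : A1.derivative ≠ 0 := fun h => hd0 (Polynomial.derivative_eq_zero.1 h)
  have hdlt : A1.derivative.natDegree < Nat.find hex := by
    rw [← hdeg]
    exact Polynomial.natDegree_derivative_lt hd0
  have hs0 : ∃ s0 ∈ Ioo a b, A1.derivative.evalEval (γ s0) ((starRingEnd ℂ) (γ s0)) ≠ 0 := by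
    by_contra hcon
    push Not at hcon
    exact hmin _ hdlt ⟨A1.derivative, hdne, rfl, a, b, hab, hαa, hbβ, hcon⟩
  obtain ⟨s0, hs0m, hs0d⟩ := hs0
  refine ⟨s0, ⟨lt_of_le_of_lt hαa hs0m.1, lt_of_lt_of_le hs0m.2 hbβ⟩, ?_⟩
  obtain ⟨ψ, hψ, hψA⟩ := AS2_imp A1 (γ s0) ((starRingEnd ℂ) (γ s0)) (h1 s0 hs0m) hs0d
  have hcγ : ∀ s, ContinuousAt γ s := fun s => (hγ.der s).continuousAt
  have hder2 : ∀ s : ℝ, HasDerivAt (fun s => (starRingEnd ℂ) (γ s))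
      ((ρ s : ℂ) * (-I) * cexp (-(s * I))) s := by
    intro s
    have h2 := (hγ.der s).star
    have e : star ((ρ s : ℂ) * I * cexp (s * I)) = (ρ s : ℂ) * (-I) * cexp (-(s * I)) := by
      rw [star_def, map_mul, map_mul, ← exp_conj, map_mul, conj_ofReal, conj_I, conj_ofReal,
        show (s : ℂ) * -I = -(s * I) by ring]
    rw [e] at h2
    exact h2
  have hev1 : ∀ᶠ s in 𝓝 s0, (starRingEnd ℂ) (γ s) = ψ (γ s) := by
    have ht : Tendsto (fun s => ((γ s, (starRingEnd ℂ) (γ s)) : ℂ × ℂ)) (𝓝 s0)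
        (𝓝 (γ s0, (starRingEnd ℂ) (γ s0))) :=
      ((hcγ s0).prodMk (hder2 s0).continuousAt)
    filter_upwards [ht.eventually hψA, Ioo_mem_nhds hs0m.1 hs0m.2] with s hs hs2
    exact hs (h1 s hs2)
  have hρ : ∀ s, (ρ s : ℂ) ≠ 0 := fun s => by exact_mod_cast (hγ.pos s).ne'
  have hev2 : ∀ᶠ s in 𝓝 s0, deriv ψ (γ s) = -cexp (-(2 * s * I)) := by
    have han : ∀ᶠ s in 𝓝 s0, AnalyticAt ℂ ψ (γ s) :=
      (hcγ s0).eventually hψ.eventually_analyticAt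
    filter_upwards [hev1.eventually_nhds, han] with s hs han
    have h3 : HasDerivAt (fun s => ψ (γ s)) (deriv ψ (γ s) * ((ρ s : ℂ) * I * cexp (s * I))) s :=
      HasDerivAt.comp s han.differentiableAt.hasDerivAt (hγ.der s)
    have h4 := (hder2 s).unique (h3.congr_of_eventuallyEq hs)
    have h5 : cexp (s * I) * cexp (-(s * I)) = 1 := by rw [← exp_add]; simp
    have h6 : cexp (-(2 * s * I)) = cexp (-(s * I)) * cexp (-(s * I)) := by
      rw [← exp_add]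
      congr 1
      ring
    have h7 : (ρ s : ℂ) * I * (deriv ψ (γ s) * cexp (s * I) + cexp (-(s * I))) = 0 := by
      linear_combination -h4
    have h8 : deriv ψ (γ s) * cexp (s * I) + cexp (-(s * I)) = 0 := by
      rcases mul_eq_zero.1 h7 with h | h
      · exact absurd h (mul_ne_zero (hρ s) I_ne_zero)
      · exact h
    rw [h6]
    linear_combination cexp (-(s * I)) * h8 - deriv ψ (γ s) * h5
  -- second derivative
  have hψ1 : AnalyticAt ℂ (deriv ψ) (γ s0) := hψ.deriv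
  have hE : ∀ s : ℝ, HasDerivAt (fun s : ℝ => -cexp (-(2 * (s : ℂ) * I)))
      (2 * I * cexp (-(2 * s * I))) s := by
    intro s
    have h2 : HasDerivAt (fun z : ℂ => -cexp (-(2 * z * I))) (2 * I * cexp (-(2 * s * I)))
        (s : ℂ) := by
      have h3 : HasDerivAt (fun z : ℂ => (-(2 * I)) * z) ((-(2 * I)) * 1) (s : ℂ) :=
        (hasDerivAt_id (s : ℂ)).const_mul _
      have h4 : HasDerivAt (fun z : ℂ => (-1) * cexp ((-(2 * I)) * z))
          ((-1) * (cexp ((-(2 * I)) * (s : ℂ)) * ((-(2 * I)) * 1))) (s : ℂ) :=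
        (h3.cexp).const_mul (-1)
      have e1 : (fun z : ℂ => -cexp (-(2 * z * I))) = fun z : ℂ => (-1) * cexp ((-(2 * I)) * z) := by
        funext z
        rw [show (-(2 * I)) * z = -(2 * z * I) by ring]
        ring
      rw [e1]
      refine h4.congr_deriv ?_
      rw [show (-(2 * I)) * (s : ℂ) = -(2 * s * I) by ring]
      ring
    exact h2.comp_ofReal
  have hne2 : deriv (deriv ψ) (γ s0) ≠ 0 := by
    intro h0
    have h3 : HasDerivAt (fun s => deriv ψ (γ s))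
        (deriv (deriv ψ) (γ s0) * ((ρ s0 : ℂ) * I * cexp (s0 * I))) s0 :=
      HasDerivAt.comp s0 hψ1.differentiableAt.hasDerivAt (hγ.der s0)
    have h4 := (hE s0).unique (h3.congr_of_eventuallyEq (hev2.mono fun s hs => hs.symm))
    rw [h0, zero_mul] at h4
    exact mul_ne_zero (mul_ne_zero two_ne_zero I_ne_zero) (exp_ne_zero _) h4
  -- local inverse
  have cd : ContDiffAt ℂ ⊤ (deriv ψ) (γ s0) := hψ1.contDiffAt
  have hfd : HasFDerivAt (deriv ψ)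
      ((ContinuousLinearEquiv.unitsEquivAut ℂ (Units.mk0 _ hne2) : ℂ ≃L[ℂ] ℂ) : ℂ →L[ℂ] ℂ)
      (γ s0) := hψ1.differentiableAt.hasDerivAt.hasFDerivAt_equiv hne2
  have hne : (⊤ : WithTop ℕ∞) ≠ 0 := by simp
  have hinv := cd.to_localInverse hfd hne
  have hleft := (cd.hasStrictFDerivAt' hfd hne).eventually_left_inverse
  have hev3 : ∀ᶠ s in 𝓝 s0, γ s = (cd.localInverse hfd hne) (-cexp (-(2 * (s : ℂ) * I))) := by
    filter_upwards [hev2, (hcγ s0).eventually hleft] with s hs hs2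
    rw [← hs]
    exact hs2.symm
  have hE0 : deriv ψ (γ s0) = -cexp (-(2 * (s0 : ℂ) * I)) := hev2.self_of_nhds
  have hanI : AnalyticAt ℝ (cd.localInverse hfd hne) (-cexp (-(2 * (s0 : ℂ) * I))) := by
    rw [← hE0]
    exact hinv.analyticAt.restrictScalars
  have hanE : AnalyticAt ℝ (fun s : ℝ => -cexp (-(2 * (s : ℂ) * I))) s0 := by
    have h2 : AnalyticAt ℂ (fun z : ℂ => -cexp (-(2 * z * I))) (s0 : ℂ) := by fun_prop
    exact h2.restrictScalars.comp_of_eq (Complex.ofRealCLM.analyticAt s0) rfl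
  have hfin : AnalyticAt ℝ (fun s : ℝ => (cd.localInverse hfd hne) (-cexp (-(2 * (s : ℂ) * I)))) s0 :=
    hanI.comp_of_eq hanE rfl
  exact hfin.congr (hev3.mono fun s hs => hs.symm)

/-- start at an analytic point of an arc (adapted from AT2) -/
theorem start_arc {γ : ℝ → ℂ} {ρ : ℝ → ℝ} (ho : IsOval γ ρ) {K : ℝ → ℝ → ℝ} {ε : ℝ} (hε : 0 < ε)
    (hK : AnalyticOnNhd ℝ (Function.uncurry K) {z | |z.2 - sup (γ z.1) z.1| < ε})
    (hrefl : ∀ s : ℝ, ∃ εs > 0, ∀ δ : ℝ, 0 < δ → δ < εs →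
      K (s + δ) (sup (γ s) (s + δ)) = K (s - δ) (sup (γ s) (s - δ)))
    (hnc : ¬ ∃ c, ∀ φ p : ℝ, |p - sup (γ φ) φ| < ε → K φ p = c) {α β s0 : ℝ}
    (hs0 : s0 ∈ Ioo α β) (hγ : AnalyticAt ℝ γ s0) :
    ∃ (x : ℝ) (Z W : ℂ → ℂ) (r : ℝ),
      0 < r ∧ DifferentiableOn ℂ Z (Metric.ball (x : ℂ) r) ∧
      DifferentiableOn ℂ W (Metric.ball (x : ℂ) r) ∧
      (∀ t : ℝ, (t : ℂ) ∈ Metric.ball (x : ℂ) r → Z t = γ t ∧ W t = (starRingEnd ℂ) (γ t)) ∧
      (∀ t ∈ Metric.ball (x : ℂ) r, deriv Z t ≠ 0 ∧ deriv W t ≠ 0 ∧ Wr Z W t ≠ 0) ∧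
      GoodAt Z W x ∧ x ∈ Ioo α β := by
  obtain ⟨Z, r1, hr1, hZ, hZγ⟩ := tAEX γ s0 hγ
  have hcγ : AnalyticAt ℝ (fun s => (starRingEnd ℂ) (γ s)) s0 :=
    (Complex.conjCLE.toContinuousLinearMap.analyticAt (γ s0)).comp hγ
  obtain ⟨W, r2, hr2, hW, hWγ⟩ := tAEX (fun s => (starRingEnd ℂ) (γ s)) s0 hcγ
  set r := min (min r1 r2) (min (s0 - α) (β - s0)) with hr
  have hrp : 0 < r := lt_min (lt_min hr1 hr2) (lt_min (by linarith [hs0.1]) (by linarith [hs0.2]))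
  have hb1 : Metric.ball ((s0 : ℂ)) r ⊆ Metric.ball ((s0 : ℂ)) r1 :=
    Metric.ball_subset_ball ((min_le_left _ _).trans (min_le_left _ _))
  have hb2 : Metric.ball ((s0 : ℂ)) r ⊆ Metric.ball ((s0 : ℂ)) r2 :=
    Metric.ball_subset_ball ((min_le_left _ _).trans (min_le_right _ _))
  have hra : r ≤ s0 - α := (min_le_right _ _).trans (min_le_left _ _)
  have hrb : r ≤ β - s0 := (min_le_right _ _).trans (min_le_right _ _)
  have hZ' := hZ.mono hb1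
  have hW' := hW.mono hb2
  have hIoo : ∀ t ∈ Ioo (s0 - r) (s0 + r), (t : ℂ) ∈ Metric.ball ((s0 : ℂ)) r := by
    intro t ht
    rw [Metric.mem_ball, dist_eq_norm, ← Complex.ofReal_sub, Complex.norm_real,
      Real.norm_eq_abs, abs_lt]
    exact ⟨by linarith [ht.1], by linarith [ht.2]⟩
  obtain ⟨x, Φ, R, y, η, hx, hP, hΦ, hη, hR, hRρ⟩ := tSTZ γ ρ ho Z W (s0 : ℂ) r
    (fun t => t) (s0 - r) (s0 + r) hZ' hW' continuousOn_id
    (fun t ht => ⟨hIoo t ht, hZγ t (hb1 (hIoo t ht)), hWγ t (hb2 (hIoo t ht))⟩)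
    (AT2_ne γ ρ ho s0 r hrp)
  have hg : Good kcs R y := fin_sta γ ρ ho K ε hε hK hrefl hnc R y η hη hR hRρ
  have hG : GoodAt Z W x := ⟨Φ, R, hP, by rw [hΦ]; exact hg⟩
  obtain ⟨g1, g2, g3⟩ := LC_good hG
  have hf : DifferentiableOn ℂ (fun t => deriv Z t * deriv W t * Wr Z W t)
      (Metric.ball (s0 : ℂ) r) := LC_diff Metric.isOpen_ball hZ' hW'
  have hU : IsOpen {t ∈ Metric.ball (s0 : ℂ) r |
      (fun t => deriv Z t * deriv W t * Wr Z W t) t ≠ 0} :=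
    hf.continuousOn.isOpen_inter_preimage Metric.isOpen_ball isOpen_compl_singleton
  obtain ⟨δ, hδ, hsub⟩ := Metric.isOpen_iff.1 hU (x : ℂ)
    ⟨hIoo x hx, mul_ne_zero (mul_ne_zero g1 g2) g3⟩
  have hs : Metric.ball (x : ℂ) δ ⊆ Metric.ball (s0 : ℂ) r := fun t ht => (hsub ht).1
  refine ⟨x, Z, W, δ, hδ, hZ'.mono hs, hW'.mono hs, ?_, ?_, hG, ?_⟩
  · intro t ht
    exact ⟨hZγ t (hb1 (hs ht)), hWγ t (hb2 (hs ht))⟩
  · intro t ht
    have h := (hsub ht).2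
    simp only [ne_eq, mul_eq_zero, not_or] at h
    exact ⟨h.1.1, h.1.2, h.2⟩
  · exact ⟨by linarith [hx.1], by linarith [hx.2]⟩

/-- an algebraic arc of the boundary of a billiard with an analytic integral lies on a conic
(adapted from AAY) -/
theorem inner_arc {γ : ℝ → ℂ} {ρ : ℝ → ℝ} (ho : IsOval γ ρ) {K : ℝ → ℝ → ℝ} {ε : ℝ} (hε : 0 < ε)
    (hK : AnalyticOnNhd ℝ (Function.uncurry K) {z | |z.2 - sup (γ z.1) z.1| < ε})
    (hrefl : ∀ s : ℝ, ∃ εs > 0, ∀ δ : ℝ, 0 < δ → δ < εs →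
      K (s + δ) (sup (γ s) (s + δ)) = K (s - δ) (sup (γ s) (s - δ)))
    (hnc : ¬ ∃ c, ∀ φ p : ℝ, |p - sup (γ φ) φ| < ε → K φ p = c)
    {A : ℂ[X][Y]} (hA0 : A ≠ 0) {α β : ℝ} (hαβ : α < β)
    (hA : ∀ s ∈ Ioo α β, A.evalEval (γ s) ((starRingEnd ℂ) (γ s)) = 0) :
    ∃ (t0 : ℝ) (q0 q1 q2 q3 q4 q5 : ℂ),
      ¬ (q0 = 0 ∧ q1 = 0 ∧ q2 = 0 ∧ q3 = 0 ∧ q4 = 0 ∧ q5 = 0) ∧
      ∀ᶠ t : ℝ in 𝓝 t0, q0 * γ t ^ 2 + q1 * γ t * (starRingEnd ℂ) (γ t) +
        q2 * (starRingEnd ℂ) (γ t) ^ 2 + q3 * γ t + q4 * (starRingEnd ℂ) (γ t) + q5 = 0 := by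
  have hASH := tASH tALO
  have hACV := tACV tALO hASH
  have hAGR := tAGR tGRP
  have hAGS := tAGS fin_seg hAGR tAMI tALO
  have hAGP := tAGP hAGS tGRP
  have hABD := tABD (tAHP hACV (tAUN hASH)) tAME hAGP fin_plc tAMI tALO
  have hAGL : StAGL := tAGL tALO hASH hAGS hABD tALI
  obtain ⟨s0, hs0m, hs0⟩ := arc_analytic ho hA0 hαβ hA
  obtain ⟨x, Z, W, r, hr, hZd, hWd, hZW, hreg, hgood, hxm⟩ :=
    start_arc ho hε hK hrefl hnc hs0m hs0
  have hxr : (x : ℂ) ∈ Metric.ball (x : ℂ) r := Metric.mem_ball_self hr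
  have hopen : IsOpen (Metric.ball (x : ℂ) r) := Metric.isOpen_ball
  have hballR : ∀ᶠ t : ℝ in 𝓝 x, (t : ℂ) ∈ Metric.ball (x : ℂ) r :=
    Complex.continuous_ofReal.continuousAt.preimage_mem_nhds (hopen.mem_nhds hxr)
  -- the algebraic relation on the ball
  have hAZW : ∀ t ∈ Metric.ball (x : ℂ) r, A.evalEval (Z t) (W t) = 0 := by
    have h1 := (AAY_diff A hZd hWd).analyticOnNhd hopen
    have h2 := h1.eqOn_zero_of_preconnected_of_frequently_eq_zero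
      (convex_ball (x : ℂ) r).isPreconnected hxr (AAY_freq (by
        filter_upwards [hballR, Ioo_mem_nhds hxm.1 hxm.2] with t ht ht2
        rw [(hZW t ht).1, (hZW t ht).2]
        exact hA t ht2))
    exact fun t ht => h2 ht
  obtain ⟨A', B, hAC, hA'⟩ := tABZ tABC A hA0 Z W x r hr hZd hWd fun t ht =>
    ⟨(hreg t ht).1, (hreg t ht).2.1, (hreg t ht).2.2, hAZW t ht⟩
  -- a real point with `Z t0 ∉ B`
  have hZax : AnalyticAt ℂ Z x := hZd.analyticAt (hopen.mem_nhds hxr)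
  have hev : ∀ᶠ z in 𝓝[≠] (x : ℂ), Z z ∉ B := by
    have h1 : ∀ b ∈ B, ∀ᶠ z in 𝓝[≠] (x : ℂ), Z z ≠ b := by
      intro b _
      rcases hZax.eventually_eq_or_eventually_ne (analyticAt_const (v := b)) with h | h
      · exfalso
        have h2 : Z =ᶠ[𝓝 (x : ℂ)] fun _ => b := h
        have h3 := h2.deriv_eq
        rw [deriv_const] at h3
        exact (hreg x hxr).1 h3
      · exact h
    have h2 := (Filter.eventually_all_finite hAC.fin).2 h1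
    filter_upwards [h2] with z hz hzB
    exact hz _ hzB rfl
  obtain ⟨t0, ht0B, ht0r⟩ : ∃ t0 : ℝ, Z t0 ∉ B ∧ (t0 : ℂ) ∈ Metric.ball (x : ℂ) r :=
    (((AAY_tend x).eventually hev).and (hballR.filter_mono nhdsWithin_le_nhds)).exists
  have hgood0 : GoodAt Z W t0 := fin_lc Z W x r x t0 hZd hWd hxr ht0r hgood
    (hreg t0 ht0r).1 (hreg t0 ht0r).2.1 (hreg t0 ht0r).2.2
  have hZa : AnalyticAt ℂ Z t0 := hZd.analyticAt (hopen.mem_nhds ht0r)
  have hWa : AnalyticAt ℂ W t0 := hWd.analyticAt (hopen.mem_nhds ht0r)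
  -- the local sheet
  obtain ⟨⟨w, hω⟩, huni⟩ := tALO A' B hAC (Z t0) ht0B (W t0) (hA' t0 ht0r)
  have hωW : ∀ᶠ t in 𝓝 (t0 : ℂ), W t = w (Z t) := by
    have h1 : Tendsto (fun t => (Z t, W t)) (𝓝 (t0 : ℂ)) (𝓝 (Z t0, W t0)) :=
      (hZa.continuousAt.prodMk hWa.continuousAt).tendsto
    filter_upwards [h1.eventually (huni w hω), hopen.mem_nhds ht0r] with t h2 h3
    exact h2 (hA' t h3)
  have hgood1 : GoodAt Z (fun s => w (Z s)) t0 := AAY_good hωW hgood0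
  have hAG : AG A' (Z t0) (W t0) :=
    ⟨w, hω, (hAGR Z w t0 hZa (hreg t0 ht0r).1 hω.1).1 hgood1⟩
  obtain ⟨m0, hm0⟩ := hAGL A' B hAC (Z t0) ht0B (W t0) w hAG hω
  have hflex := hAC.flex (Z t0) ht0B w hω.1 hω.2.2
  have hωa : ∀ᶠ z in 𝓝 (Z t0), AnalyticAt ℂ w z := hω.1.eventually_analyticAt
  have hWrne : ∀ᶠ z in 𝓝 (Z t0), Wr (fun x => x) w z ≠ 0 := by
    have h1 : ContinuousAt (deriv (deriv w)) (Z t0) := hω.1.deriv.deriv.continuousAt
    filter_upwards [h1.eventually_ne hflex.2] with z hz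
    rw [AAY_Wr]
    exact hz
  obtain ⟨r', hr', hball'⟩ := Metric.eventually_nhds_iff_ball.1 (hωa.and (hWrne.and hm0))
  obtain ⟨q0, q1, q2, q3, q4, q5, hq, hqe⟩ := tCQU (fun x => x) w (Z t0) m0 r' hr'
    differentiableOn_id (fun z hz => (hball' z hz).1.differentiableAt.differentiableWithinAt)
    fun z hz => (hball' z hz).2
  -- back to the oval
  have hback : ∀ᶠ t in 𝓝 (t0 : ℂ), q0 * Z t ^ 2 + q1 * Z t * W t + q2 * W t ^ 2 + q3 * Z t +
      q4 * W t + q5 = 0 := by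
    filter_upwards [hZa.continuousAt.eventually hqe, hωW] with t h1 h2
    rw [h2]
    exact h1
  refine ⟨t0, q0, q1, q2, q3, q4, q5, hq, ?_⟩
  have h1 : ∀ᶠ t : ℝ in 𝓝 t0, (t : ℂ) ∈ Metric.ball (x : ℂ) r :=
    Complex.continuous_ofReal.continuousAt.preimage_mem_nhds (hopen.mem_nhds ht0r)
  filter_upwards [Complex.continuous_ofReal.continuousAt.eventually hback, h1] with t h2 h3
  rw [(hZW t h3).1, (hZW t h3).2] at h2
  exact h2

end Pool.Agent.V5helper83.AR
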