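import Pool.Agent.V5helper83.AR.InnerDep
import Pool.Agent.V5helper83.AR.InnerLoc
import Pool.Agent.N264.MKI.Conf

/-! Inner billiards with an algebraic arc: assembly. -/

open Complex Set Filter Topology Polynomial

open scoped Polynomial.Bivariate

namespace Pool.Agent.V5helper83.AR

open H738CZ H719FX

/-- passing to real coefficients -/
theorem realify {x y : ℝ → ℝ} {t0 : ℝ} {P0 P1 P2 P3 P4 P5 : ℂ}
    (hP : ¬ (P0 = 0 ∧ P1 = 0 ∧ P2 = 0 ∧ P3 = 0 ∧ P4 = 0 ∧ P5 = 0))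
    (h : ∀ᶠ t in 𝓝 t0, P0 * (x t : ℂ) ^ 2 + P1 * x t * y t + P2 * (y t : ℂ) ^ 2 + P3 * x t +
      P4 * y t + P5 = 0) : ∃ q : Cf, q.Nz ∧ ∀ᶠ t in 𝓝 t0, q.Q (x t) (y t) = 0 := by
  have e : ∀ t, P0 * (x t : ℂ) ^ 2 + P1 * x t * y t + P2 * (y t : ℂ) ^ 2 + P3 * x t +
      P4 * y t + P5 = P0 * ((x t ^ 2 : ℝ) : ℂ) + P1 * ((x t * y t : ℝ) : ℂ) +
      P2 * ((y t ^ 2 : ℝ) : ℂ) + P3 * ((x t : ℝ) : ℂ) + P4 * ((y t : ℝ) : ℂ) + P5 := by
    intro t
    push_cast
    ring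
  by_cases hre : P0.re = 0 ∧ P1.re = 0 ∧ P2.re = 0 ∧ P3.re = 0 ∧ P4.re = 0 ∧ P5.re = 0
  · refine ⟨⟨P0.im, P1.im / 2, P2.im, P3.im / 2, P4.im / 2, P5.im⟩, ?_, ?_⟩
    · rintro ⟨h0, h1, h2, h3, h4, h5⟩
      simp only at h0 h1 h2 h3 h4 h5
      obtain ⟨r0, r1, r2, r3, r4, r5⟩ := hre
      refine hP ⟨Complex.ext r0 h0, Complex.ext r1 ?_, Complex.ext r2 h2, Complex.ext r3 ?_,
        Complex.ext r4 ?_, Complex.ext r5 h5⟩
      · show P1.im = 0
        linarith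
      · show P3.im = 0
        linarith
      · show P4.im = 0
        linarith
    · filter_upwards [h] with t ht
      rw [e] at ht
      have h1 := congrArg Complex.im ht
      simp only [Complex.add_im, Complex.im_mul_ofReal, Complex.zero_im] at h1
      unfold Cf.Q
      linear_combination h1
  · refine ⟨⟨P0.re, P1.re / 2, P2.re, P3.re / 2, P4.re / 2, P5.re⟩, ?_, ?_⟩
    · rintro ⟨h0, h1, h2, h3, h4, h5⟩
      simp only at h0 h1 h2 h3 h4 h5
      exact hre ⟨h0, by linarith, h2, by linarith, by linarith, h5⟩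
    · filter_upwards [h] with t ht
      rw [e] at ht
      have h1 := congrArg Complex.re ht
      simp only [Complex.add_re, Complex.re_mul_ofReal, Complex.zero_re] at h1
      unfold Cf.Q
      linear_combination h1

/-- an oval on a real conic is an ellipse -/
theorem ellipse_of_Q {γ : ℝ → ℂ} {ρ : ℝ → ℝ} (hOv : IsOval γ ρ) (q : Cf) (hq : q.Nz)
    (h : ∀ s, q.Q (γ s).re (γ s).im = 0) :
    ∃ (c : ℂ) (a b d : ℝ), 0 < a ∧ 0 < a * d - b ^ 2 ∧
      Set.range γ = {x : ℂ | a * (x.re - c.re) ^ 2 + 2 * b * (x.re - c.re) * (x.im - c.im)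
        + d * (x.im - c.im) ^ 2 = 1} := by
  refine tCEL γ ρ hOv ((q.a : ℂ) / 4 - I * q.b / 2 - q.c / 4) ((q.a : ℂ) / 2 + q.c / 2)
    ((q.a : ℂ) / 4 + I * q.b / 2 - q.c / 4) ((q.d : ℂ) - I * q.e) ((q.d : ℂ) + I * q.e) q.f ?_
    fun φ => ?_
  · rintro ⟨e0, e1, e2, e3, e4, e5⟩
    apply hq
    have a1 : (q.a : ℂ) = 0 := by linear_combination e0 + e2 + e1
    have a2 : (q.c : ℂ) = 0 := by linear_combination e1 - e0 - e2
    have a3 : (q.b : ℂ) = 0 := by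
      linear_combination I * (e0 - e2) + (q.b : ℂ) * I_sq
    have a4 : (q.d : ℂ) = 0 := by linear_combination (e3 + e4) / 2
    have a5 : (q.e : ℂ) = 0 := by linear_combination I / 2 * (e3 - e4) + (q.e : ℂ) * I_sq
    exact ⟨by exact_mod_cast a1, by exact_mod_cast a3, by exact_mod_cast a2, by exact_mod_cast a4,
      by exact_mod_cast a5, by exact_mod_cast e5⟩
  · have h1 : ((q.Q (γ φ).re (γ φ).im : ℝ) : ℂ) = 0 := by rw [h φ]; simp
    have hx : ((γ φ).re : ℂ) = (γ φ + (starRingEnd ℂ) (γ φ)) / 2 := by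
      rw [Complex.add_conj]
      push_cast
      ring
    have hy : ((γ φ).im : ℂ) = -I * (γ φ - (starRingEnd ℂ) (γ φ)) / 2 := by
      rw [Complex.sub_conj]
      push_cast
      linear_combination ((γ φ).im : ℂ) * I_sq
    unfold Cf.Q at h1
    push_cast at h1
    rw [hx, hy] at h1
    linear_combination h1 - (q.c * (γ φ - (starRingEnd ℂ) (γ φ)) ^ 2 / 4) * I_sq

section
variable {γ : ℝ → ℂ} {ρ : ℝ → ℝ} (hOv : IsOval γ ρ) {K : ℝ → ℝ → ℝ} {ε : ℝ} (hε : 0 < ε)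
  (hK : AnalyticOnNhd ℝ (Function.uncurry K) {z | |z.2 - sup (γ z.1) z.1| < ε})
  (hrefl : ∀ s : ℝ, ∃ εs > 0, ∀ δ : ℝ, 0 < δ → δ < εs →
    K (s + δ) (sup (γ s) (s + δ)) = K (s - δ) (sup (γ s) (s - δ)))
  (hnc : ¬ ∃ c, ∀ φ p : ℝ, |p - sup (γ φ) φ| < ε → K φ p = c)
include hOv hε hK hrefl hnc

/-- a conic arc of the boundary -/
theorem inner_conic {q : Cf} (hq : q.Nz) {t0 : ℝ}
    (h : ∀ᶠ s in 𝓝 t0, q.Q (γ s).re (γ s).im = 0) :
    ∃ (c : ℂ) (a b d : ℝ), 0 < a ∧ 0 < a * d - b ^ 2 ∧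
      Set.range γ = {x : ℂ | a * (x.re - c.re) ^ 2 + 2 * b * (x.re - c.re) * (x.im - c.im)
        + d * (x.im - c.im) ^ 2 = 1} := by
  have hΔ := det_ne hOv q hq h
  obtain ⟨hdep, hz⟩ := inner_dep hOv hε hK hrefl q hΔ h
  have hG : Continuous fun s => ((s, sup (γ s) s) : ℝ × ℝ) :=
    continuous_id.prodMk (cont_sup hOv)
  obtain ⟨hall, -⟩ := propagate (strip_open hOv ε) (strip_conn hOv ε) hK
    (fun p _ => q.H_analytic p) hG (strip_mem hε) (K_const hOv hε hK hrefl)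
    (fun hcon => hnc ⟨_, fun φ p hp => hcon (φ, p) hp⟩) (fun s hs => q.H_reg hΔ _ hs) hdep hz
  exact ellipse_of_Q hOv q hq (on_conic hOv q hΔ hall)

/-- an algebraic arc of the boundary -/
theorem inner_algebraic {A : ℂ[X][Y]} (hA0 : A ≠ 0) {α β : ℝ} (hαβ : α < β)
    (hA : ∀ s ∈ Ioo α β, A.evalEval (γ s) ((starRingEnd ℂ) (γ s)) = 0) :
    ∃ (c : ℂ) (a b d : ℝ), 0 < a ∧ 0 < a * d - b ^ 2 ∧
      Set.range γ = {x : ℂ | a * (x.re - c.re) ^ 2 + 2 * b * (x.re - c.re) * (x.im - c.im)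
        + d * (x.im - c.im) ^ 2 = 1} := by
  obtain ⟨t0, q0, q1, q2, q3, q4, q5, hq, h⟩ := inner_arc hOv hε hK hrefl hnc hA0 hαβ hA
  obtain ⟨q, hqn, hqQ⟩ := realify (x := fun t => (γ t).re) (y := fun t => (γ t).im)
    (P0 := q0 + q1 + q2) (P1 := 2 * I * (q0 - q2)) (P2 := q1 - q0 - q2) (P3 := q3 + q4)
    (P4 := I * (q3 - q4)) (P5 := q5) (t0 := t0) (by
      rintro ⟨e0, e1, e2, e3, e4, e5⟩
      apply hq
      have a0 : q1 = 0 := by linear_combination (e0 + e2) / 2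
      have a1 : q0 - q2 = 0 := by
        linear_combination (-I / 2) * e1 + (q0 - q2) * I_sq
      have a2 : q3 - q4 = 0 := by linear_combination (-I) * e4 + (q3 - q4) * I_sq
      exact ⟨by linear_combination (e0 - a0 + a1) / 2, a0, by linear_combination (e0 - a0 - a1) / 2,
        by linear_combination (e3 + a2) / 2, by linear_combination (e3 - a2) / 2, e5⟩) (by
      filter_upwards [h] with t ht
      have hz : γ t = ((γ t).re : ℂ) + ((γ t).im : ℂ) * I := (Complex.re_add_im _).symm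
      have hw : (starRingEnd ℂ) (γ t) = ((γ t).re : ℂ) - ((γ t).im : ℂ) * I := by
        conv_lhs => rw [hz]
        rw [map_add, map_mul, conj_ofReal, conj_ofReal, conj_I]
        ring
      rw [hw] at ht
      rw [hz] at ht
      simp only [Complex.add_re, Complex.add_im, Complex.ofReal_re, Complex.ofReal_im,
        Complex.mul_re, Complex.mul_im, Complex.I_re, Complex.I_im, mul_zero, mul_one,
        zero_add, add_zero, sub_self] at ht
      linear_combination ht - ((γ t).im : ℂ) ^ 2 * (q0 - q1 + q2) * I_sq)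
  exact inner_conic hOv hε hK hrefl hnc hqn hqQ

end

end Pool.Agent.V5helper83.AR
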