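import Pool.Agent.V5helper83.AR.Flat

/-! Functional dependence of two analytic functions of two variables. -/

open Set Filter Topology

open scoped ContDiff

namespace Pool.Agent.V5helper83.AR

/-- analytic local inverse of `(ℓ, H)` -/
theorem inv {H : ℝ × ℝ → ℝ} {P : ℝ × ℝ} (hH : AnalyticAt ℝ H P) (l : ℝ × ℝ →L[ℝ] ℝ)
    (hinj : ∀ v, l v = 0 → fderiv ℝ H P v = 0 → v = 0) :
    ∃ g : ℝ × ℝ → ℝ × ℝ, AnalyticAt ℝ g (l P, H P) ∧ g (l P, H P) = P ∧
      (∀ᶠ p in 𝓝 P, g (l p, H p) = p) ∧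
      ∀ᶠ q in 𝓝 (l P, H P), l (g q) = q.1 ∧ H (g q) = q.2 := by
  let ψ : ℝ × ℝ → ℝ × ℝ := fun p => (l p, H p)
  have hψ : AnalyticAt ℝ ψ P := (l.analyticAt P).prod hH
  let L : (ℝ × ℝ) →L[ℝ] (ℝ × ℝ) := l.prod (fderiv ℝ H P)
  have hL : Function.Injective (L : (ℝ × ℝ) →ₗ[ℝ] (ℝ × ℝ)) := by
    rw [injective_iff_map_eq_zero]
    intro v hv
    have h1 : (l v, fderiv ℝ H P v) = (0, 0) := hv
    rw [Prod.mk.injEq] at h1
    exact hinj v h1.1 h1.2
  let e : (ℝ × ℝ) ≃L[ℝ] (ℝ × ℝ) :=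
    (LinearEquiv.ofInjectiveEndo (L : (ℝ × ℝ) →ₗ[ℝ] (ℝ × ℝ)) hL).toContinuousLinearEquiv
  have he : (e : (ℝ × ℝ) →L[ℝ] (ℝ × ℝ)) = L := by
    apply ContinuousLinearMap.ext
    intro v
    rfl
  have hfd : HasFDerivAt ψ (e : (ℝ × ℝ) →L[ℝ] (ℝ × ℝ)) P := by
    rw [he]
    exact l.hasFDerivAt.prodMk hH.differentiableAt.hasFDerivAt
  have cd : ContDiffAt ℝ ω ψ P := hψ.contDiffAt
  have hne : (ω : WithTop ℕ∞) ≠ 0 := by simp
  have hst := cd.hasStrictFDerivAt' hfd hne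
  refine ⟨cd.localInverse hfd hne, (cd.to_localInverse hfd hne).analyticAt,
    cd.localInverse_apply_image hfd hne, hst.eventually_left_inverse, ?_⟩
  have h2 := hst.eventually_right_inverse
  filter_upwards [h2] with q hq
  have h3 : ψ (cd.localInverse hfd hne q) = q := hq
  have h4 : (l (cd.localInverse hfd hne q), H (cd.localInverse hfd hne q)) = q := h3
  exact ⟨congrArg Prod.fst h4, congrArg Prod.snd h4⟩

theorem const_first {F : ℝ × ℝ → ℝ} {q0 : ℝ × ℝ} (hF : AnalyticAt ℝ F q0)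
    (h : ∀ᶠ q in 𝓝 q0, fderiv ℝ F q (1, 0) = 0) : ∀ᶠ q in 𝓝 q0, F q = F (q0.1, q.2) := by
  obtain ⟨R, hR, hb⟩ := Metric.eventually_nhds_iff_ball.1 (hF.eventually_analyticAt.and h)
  obtain ⟨x0, c0⟩ := q0
  filter_upwards [Metric.ball_mem_nhds (x0, c0) hR] with q hq
  obtain ⟨x, c⟩ := q
  rw [mem_box] at hq
  have hmv := (convex_ball x0 R).norm_image_sub_le_of_norm_hasDerivWithin_le
    (f := fun x => F (x, c)) (f' := fun _ => (0 : ℝ)) (C := 0) (fun y hy => by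
      rw [Metric.mem_ball, Real.dist_eq] at hy
      obtain ⟨h1, h2⟩ := hb (y, c) (mem_box.2 ⟨hy, hq.2⟩)
      have h3 : HasDerivAt (fun t : ℝ => ((t, c) : ℝ × ℝ)) ((1 : ℝ), (0 : ℝ)) y :=
        (hasDerivAt_id y).prodMk (hasDerivAt_const y c)
      have h4 := HasFDerivAt.comp_hasDerivAt y h1.differentiableAt.hasFDerivAt h3
      rw [h2] at h4
      exact h4.hasDerivWithinAt) (fun y _ => by simp) (Metric.mem_ball_self hR)
      (show x ∈ Metric.ball x0 R by rw [Metric.mem_ball, Real.dist_eq]; exact hq.1)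
  rw [zero_mul, norm_le_zero_iff, sub_eq_zero] at hmv
  exact hmv

/-- near `P` the function `K` is an analytic function of `H` -/
def Dep (K H : ℝ × ℝ → ℝ) (P : ℝ × ℝ) : Prop :=
  ∃ k : ℝ → ℝ, AnalyticAt ℝ k (H P) ∧ ∀ᶠ p in 𝓝 P, K p = k (H p)

theorem dep_of_zero {K H : ℝ × ℝ → ℝ} {P : ℝ × ℝ} (hK : AnalyticAt ℝ K P)
    (hH : AnalyticAt ℝ H P) {l : ℝ × ℝ →L[ℝ] ℝ} {g : ℝ × ℝ → ℝ × ℝ}
    (hg : AnalyticAt ℝ g (l P, H P)) (hgP : g (l P, H P) = P)
    (hl : ∀ᶠ p in 𝓝 P, g (l p, H p) = p)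
    (h : ∀ᶠ q in 𝓝 (l P, H P), fderiv ℝ (fun q => K (g q)) q (1, 0) = 0) : Dep K H P := by
  have hKg : AnalyticAt ℝ (fun q => K (g q)) (l P, H P) := by
    have hK' : AnalyticAt ℝ K (g (l P, H P)) := by rw [hgP]; exact hK
    exact hK'.comp hg
  have hcf := const_first hKg h
  refine ⟨fun c => K (g (l P, c)), ?_, ?_⟩
  · exact hKg.comp (f := fun c : ℝ => ((l P, c) : ℝ × ℝ)) (analyticAt_const.prod analyticAt_id)
  · have ht : Tendsto (fun p => (l p, H p)) (𝓝 P) (𝓝 (l P, H P)) :=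
      (l.continuous.continuousAt.prodMk hH.continuousAt)
    filter_upwards [ht.eventually hcf, hl] with p h1 h2
    have h3 : K (g (l p, H p)) = K (g (l P, H p)) := h1
    rw [h2] at h3
    exact h3

theorem fderiv_split {K : ℝ × ℝ → ℝ} (p v : ℝ × ℝ) :
    fderiv ℝ K p v = v.1 * fderiv ℝ K p (1, 0) + v.2 * fderiv ℝ K p (0, 1) := by
  have h : v = v.1 • ((1, 0) : ℝ × ℝ) + v.2 • ((0, 1) : ℝ × ℝ) := by
    ext <;> simp
  conv_lhs => rw [h]
  rw [map_add, map_smul, map_smul, smul_eq_mul, smul_eq_mul]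

/-- the Jacobian -/
noncomputable def Jac (K H : ℝ × ℝ → ℝ) (p : ℝ × ℝ) : ℝ :=
  fderiv ℝ K p (1, 0) * fderiv ℝ H p (0, 1) - fderiv ℝ K p (0, 1) * fderiv ℝ H p (1, 0)

theorem fderiv_analytic {K : ℝ × ℝ → ℝ} {P : ℝ × ℝ} (hK : AnalyticAt ℝ K P) (v : ℝ × ℝ) :
    AnalyticAt ℝ (fun p => fderiv ℝ K p v) P :=
  ((ContinuousLinearMap.apply ℝ ℝ v).analyticAt _).comp hK.fderiv

theorem jac_analytic {K H : ℝ × ℝ → ℝ} {P : ℝ × ℝ} (hK : AnalyticAt ℝ K P)
    (hH : AnalyticAt ℝ H P) : AnalyticAt ℝ (Jac K H) P :=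
  ((fderiv_analytic hK _).mul (fderiv_analytic hH _)).sub
    ((fderiv_analytic hK _).mul (fderiv_analytic hH _))

theorem dep_of_jac {K H : ℝ × ℝ → ℝ} {P : ℝ × ℝ} (hK : AnalyticAt ℝ K P)
    (hH : AnalyticAt ℝ H P) (hd : fderiv ℝ H P ≠ 0) (hJ : ∀ᶠ p in 𝓝 P, Jac K H p = 0) :
    Dep K H P := by
  set a := fderiv ℝ H P (1, 0) with ha
  set b := fderiv ℝ H P (0, 1) with hb
  have hab : a ^ 2 + b ^ 2 ≠ 0 := by
    intro h0
    apply hd
    have ha0 : a = 0 := by nlinarith [sq_nonneg a, sq_nonneg b]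
    have hb0 : b = 0 := by nlinarith [sq_nonneg a, sq_nonneg b]
    apply ContinuousLinearMap.ext
    intro v
    rw [fderiv_split, ← ha, ← hb, ha0, hb0]
    simp
  let l : ℝ × ℝ →L[ℝ] ℝ := b • ContinuousLinearMap.fst ℝ ℝ ℝ - a • ContinuousLinearMap.snd ℝ ℝ ℝ
  have hl : ∀ v, l v = b * v.1 - a * v.2 := fun v => rfl
  obtain ⟨g, hg, hgP, hl1, hr⟩ := inv hH l (by
    intro v h1 h2
    rw [hl] at h1
    rw [fderiv_split, ← ha, ← hb] at h2
    have e1 : (a ^ 2 + b ^ 2) * v.1 = 0 := by linear_combination b * h1 + a * h2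
    have e2 : (a ^ 2 + b ^ 2) * v.2 = 0 := by linear_combination b * h2 - a * h1
    exact Prod.ext ((mul_eq_zero.1 e1).resolve_left hab) ((mul_eq_zero.1 e2).resolve_left hab))
  refine dep_of_zero hK hH hg hgP hl1 ?_
  have hgc : Tendsto g (𝓝 (l P, H P)) (𝓝 P) := by
    have := hg.continuousAt.tendsto
    rwa [hgP] at this
  have hdH : ∀ᶠ p in 𝓝 P, fderiv ℝ H p ≠ 0 := hH.fderiv.continuousAt.eventually_ne hd
  filter_upwards [hg.eventually_analyticAt, hgc.eventually hK.eventually_analyticAt,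
    hgc.eventually hH.eventually_analyticAt, hgc.eventually hJ, hgc.eventually hdH,
    hr.eventually_nhds] with q h1 h2 h3 h4 h5 h6
  set v := fderiv ℝ g q (1, 0) with hv
  have hgd : HasFDerivAt g (fderiv ℝ g q) q := h1.differentiableAt.hasFDerivAt
  have e1 : fderiv ℝ (fun q => K (g q)) q (1, 0) = fderiv ℝ K (g q) v := by
    have := (h2.differentiableAt.hasFDerivAt.comp q hgd).fderiv
    have e : fderiv ℝ (fun q => K (g q)) q = (fderiv ℝ K (g q)).comp (fderiv ℝ g q) := this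
    rw [e]
    rfl
  have e2 : fderiv ℝ H (g q) v = 0 := by
    have := h3.differentiableAt.hasFDerivAt.comp q hgd
    have h7 : HasFDerivAt (fun q : ℝ × ℝ => q.2) ((fderiv ℝ H (g q)).comp (fderiv ℝ g q)) q := by
      refine this.congr_of_eventuallyEq ?_
      filter_upwards [h6] with q' h8
      exact h8.2.symm
    have h8 := h7.unique (hasFDerivAt_snd (𝕜 := ℝ) (E := ℝ) (F := ℝ) (p := q))
    have h9 := congrArg (fun L : (ℝ × ℝ) →L[ℝ] ℝ => L (1, 0)) h8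
    simpa using h9
  rw [e1, fderiv_split]
  rw [fderiv_split] at e2
  unfold Jac at h4
  set K1 := fderiv ℝ K (g q) (1, 0)
  set K2 := fderiv ℝ K (g q) (0, 1)
  set H1 := fderiv ℝ H (g q) (1, 0) with hH1
  set H2 := fderiv ℝ H (g q) (0, 1) with hH2
  have f1 : H1 * (v.1 * K1 + v.2 * K2) = 0 := by linear_combination K1 * e2 - v.2 * h4
  have f2 : H2 * (v.1 * K1 + v.2 * K2) = 0 := by linear_combination K2 * e2 + v.1 * h4
  by_contra hne
  apply h5
  apply ContinuousLinearMap.ext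
  intro w
  rw [fderiv_split, ← hH1, ← hH2, (mul_eq_zero.1 f1).resolve_right hne,
    (mul_eq_zero.1 f2).resolve_right hne]
  simp

theorem jac_of_dep {K H : ℝ × ℝ → ℝ} {P : ℝ × ℝ} (hH : AnalyticAt ℝ H P) (h : Dep K H P) :
    ∀ᶠ p in 𝓝 P, Jac K H p = 0 := by
  obtain ⟨k, hk, he⟩ := h
  filter_upwards [he.eventually_nhds, hH.eventually_analyticAt,
    hH.continuousAt.eventually hk.eventually_analyticAt] with p h1 h2 h3
  have h4 : HasFDerivAt (fun p => k (H p)) (deriv k (H p) • fderiv ℝ H p) p :=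
    h3.differentiableAt.hasDerivAt.comp_hasFDerivAt p h2.differentiableAt.hasFDerivAt
  have h5 : fderiv ℝ K p = deriv k (H p) • fderiv ℝ H p :=
    (h4.congr_of_eventuallyEq h1).fderiv
  unfold Jac
  rw [h5]
  simp only [_root_.smul_apply, smul_eq_mul]
  ring

/-- uniqueness of integrals: many chords with equal values of `K` on the levels of `H` -/
theorem dep_of_chords {K H : ℝ × ℝ → ℝ} {P : ℝ × ℝ} (hK : AnalyticAt ℝ K P)
    (hH : AnalyticAt ℝ H P) (hd : fderiv ℝ H P (0, 1) ≠ 0) {C : ℝ} (hC : 0 < C)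
    (hch : ∀ V ∈ 𝓝 P, ∃ r > 0, ∃ η0 > 0, ∀ t, |t - P.1| < r → ∀ η, 0 < η → η < η0 →
      ∃ A ∈ V, ∃ B ∈ V, A.1 < B.1 ∧ |A.1 - t| ≤ C * √η ∧ |B.1 - t| ≤ C * √η ∧
        H A = H P + η ∧ H B = H P + η ∧ K A = K B) : Dep K H P := by
  obtain ⟨g, hg, hgP, hl1, hr⟩ := inv hH (ContinuousLinearMap.fst ℝ ℝ ℝ) (by
    intro v h1 h2
    have h1' : v.1 = 0 := h1
    rw [fderiv_split, h1', zero_mul, zero_add] at h2
    exact Prod.ext h1' ((mul_eq_zero.1 h2).resolve_right hd))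
  refine dep_of_zero hK hH hg hgP hl1 ?_
  simp only [ContinuousLinearMap.coe_fst'] at hg hgP hl1 hr ⊢
  have hKg : AnalyticAt ℝ (fun q => K (g q)) (P.1, H P) := by
    have hK' : AnalyticAt ℝ K (g (P.1, H P)) := by rw [hgP]; exact hK
    exact hK'.comp hg
  obtain ⟨R, hR, hRb⟩ := Metric.eventually_nhds_iff_ball.1 hKg.eventually_analyticAt
  have hV : {p : ℝ × ℝ | g (p.1, H p) = p ∧ |p.1 - P.1| < R} ∈ 𝓝 P := by
    refine hl1.and ?_
    have : Tendsto (fun p : ℝ × ℝ => |p.1 - P.1|) (𝓝 P) (𝓝 |P.1 - P.1|) := by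
      have : Continuous fun p : ℝ × ℝ => |p.1 - P.1| := by fun_prop
      exact this.tendsto P
    rw [sub_self, abs_zero] at this
    exact this.eventually_lt_const hR
  obtain ⟨r, hr0, η0, hη0, h⟩ := hch _ hV
  refine flat (fderiv_analytic hKg (1, 0)) hC hr0 (lt_min hη0 hR) fun t ht η h1 h2 => ?_
  obtain ⟨A, ⟨hA1, hA2⟩, B, ⟨hB1, hB2⟩, hAB, hAt, hBt, hHA, hHB, hKAB⟩ :=
    h t ht η h1 (h2.trans_le (min_le_left _ _))
  have h2' : η < R := h2.trans_le (min_le_right _ _)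
  rw [abs_lt] at hA2 hB2
  rw [abs_le] at hAt hBt
  rw [hHA] at hA1
  rw [hHB] at hB1
  have hder : ∀ x ∈ Icc A.1 B.1, HasDerivAt (fun x => K (g (x, H P + η)))
      (fderiv ℝ (fun q => K (g q)) (x, H P + η) (1, 0)) x := by
    rintro x ⟨hx1, hx2⟩
    have h3 : HasDerivAt (fun t : ℝ => ((t, H P + η) : ℝ × ℝ)) ((1 : ℝ), (0 : ℝ)) x :=
      (hasDerivAt_id x).prodMk (hasDerivAt_const x _)
    have h4 : AnalyticAt ℝ (fun q => K (g q)) (x, H P + η) := hRb _ (by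
      rw [mem_box, add_sub_cancel_left, abs_of_pos h1, abs_lt]
      exact ⟨⟨by linarith, by linarith⟩, h2'⟩)
    have h5 := HasFDerivAt.comp_hasDerivAt x h4.differentiableAt.hasFDerivAt h3
    exact h5
  obtain ⟨z, hz, hz0⟩ := exists_hasDerivAt_eq_zero hAB
    (fun x hx => (hder x hx).continuousAt.continuousWithinAt)
    (show K (g (A.1, H P + η)) = K (g (B.1, H P + η)) by rw [hA1, hB1]; exact hKAB)
    fun x hx => hder x ⟨hx.1.le, hx.2.le⟩
  refine ⟨z, ?_, hz0⟩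
  rw [abs_le]
  constructor <;> linarith [hz.1, hz.2]

/-- propagation along a curve on which `K` is constant -/
theorem propagate {K H : ℝ × ℝ → ℝ} {U : Set (ℝ × ℝ)} (hU : IsOpen U) (hUc : IsPreconnected U)
    (hK : AnalyticOnNhd ℝ K U) (hH : AnalyticOnNhd ℝ H U) {G : ℝ → ℝ × ℝ} (hG : Continuous G)
    (hGU : ∀ s, G s ∈ U) {K0 : ℝ} (hK0 : ∀ s, K (G s) = K0) (hnc : ¬ ∀ p ∈ U, K p = K0)
    (hreg : ∀ s, H (G s) = 0 → fderiv ℝ H (G s) ≠ 0) {t0 : ℝ} (hdep : Dep K H (G t0))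
    (h0 : ∀ᶠ s in 𝓝 t0, H (G s) = 0) : (∀ s, H (G s) = 0) ∧ ∀ p ∈ U, Jac K H p = 0 := by
  have hJ : ∀ p ∈ U, Jac K H p = 0 := by
    have h1 : AnalyticOnNhd ℝ (Jac K H) U := fun p hp => jac_analytic (hK p hp) (hH p hp)
    have h2 := h1.eqOn_zero_of_preconnected_of_eventuallyEq_zero hUc (hGU t0)
      (jac_of_dep (hH _ (hGU t0)) hdep)
    exact fun p hp => h2 hp
  refine ⟨?_, hJ⟩
  set S : Set ℝ := {s | ∀ᶠ s' in 𝓝 s, H (G s') = 0} with hS
  have hSo : IsOpen S := isOpen_setOfPred_eventually_nhds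
  have hSc : IsClosed S := by
    rw [← closure_subset_iff_isClosed]
    intro s1 hs1
    have hHG : ContinuousAt (fun s => H (G s)) s1 :=
      (hH _ (hGU s1)).continuousAt.comp hG.continuousAt
    have h1 : H (G s1) = 0 := by
      have h2 : ∃ᶠ s in 𝓝 s1, H (G s) = 0 := by
        rw [mem_closure_iff_frequently] at hs1
        exact hs1.mono fun s hs => hs.self_of_nhds
      have h3 : s1 ∈ closure {s | H (G s) = 0} := mem_closure_iff_frequently.2 h2
      by_contra hne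
      exact h2 (hHG.eventually_ne hne)
    obtain ⟨k, hk, hke⟩ := dep_of_jac (hK _ (hGU s1)) (hH _ (hGU s1)) (hreg s1 h1) (by
      filter_upwards [hU.mem_nhds (hGU s1)] with p hp using hJ p hp)
    rw [h1] at hk
    rcases hk.eventually_eq_or_eventually_ne (analyticAt_const (v := K0)) with hc | hc
    · exfalso
      apply hnc
      have h4 : ∀ᶠ p in 𝓝 (G s1), K p = K0 := by
        have h5 : Tendsto H (𝓝 (G s1)) (𝓝 0) := by
          have := (hH _ (hGU s1)).continuousAt.tendsto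
          rwa [h1] at this
        filter_upwards [hke, h5.eventually hc] with p h6 h7
        rw [h6, h7]
      have h5 := hK.eqOn_of_preconnected_of_eventuallyEq (g := fun _ => K0)
        (fun p _ => analyticAt_const) hUc (hGU s1) h4
      exact fun p hp => h5 hp
    · have h5 : Tendsto (fun s => H (G s)) (𝓝 s1) (𝓝 0) := by
        have := hHG.tendsto
        rwa [h1] at this
      rw [eventually_nhdsWithin_iff] at hc
      show ∀ᶠ s' in 𝓝 s1, H (G s') = 0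
      filter_upwards [h5.eventually hc, hG.continuousAt.eventually hke] with s h6 h7
      by_contra hne
      exact h6 hne (h7.symm.trans (hK0 s))
  have hne : S.Nonempty := ⟨t0, h0⟩
  have hu : S = univ := IsClopen.eq_univ ⟨hSc, hSo⟩ hne
  intro s
  have : s ∈ S := by rw [hu]; trivial
  exact this.self_of_nhds

end Pool.Agent.V5helper83.AR
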