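import Pool.Agent.V5helper83.OA.Main
import Pool.Agent.V5helper83.AR.OuterDep

/-! Outer billiards with an algebraic arc without fast asymptotes: assembly. -/

open Complex Set Filter Topology Polynomial

open scoped Polynomial.Bivariate

namespace Pool.Agent.V5helper83.AR

open H719FX H738CZ Pool.Agent.V5helper83.OA

/-- an algebraic arc of a curve with an analytic integral of the outer billiard lies on a conic -/
theorem outer_arc {γ : ℝ → ℂ} {ρ : ℝ → ℝ} (hOv : IsOval γ ρ) {K : ℝ → ℝ → ℝ} {U : Set (ℝ × ℝ)}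
    (hK : OInt γ K U) {A : ℂ[X][Y]} (hA0 : A ≠ 0) {α β : ℝ} (hαβ : α < β)
    (hA : ∀ s ∈ Ioo α β, A.evalEval ((γ s).re : ℂ) ((γ s).im : ℂ) = 0) (hNF : NoFast A) :
    ∃ (t0 : ℝ) (q0 q1 q2 q3 q4 q5 : ℂ),
      ¬ (q0 = 0 ∧ q1 = 0 ∧ q2 = 0 ∧ q3 = 0 ∧ q4 = 0 ∧ q5 = 0) ∧
      ∀ᶠ t : ℝ in 𝓝 t0, q0 * ((γ t).re : ℂ) ^ 2 + q1 * (γ t).re * (γ t).im +
        q2 * ((γ t).im : ℂ) ^ 2 + q3 * (γ t).re + q4 * (γ t).im + q5 = 0 := by
  have hsA : ∀ s ∈ Ioo α β, (sb A).evalEval (γ s) ((starRingEnd ℂ) (γ s)) = 0 := by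
    intro s hs
    rw [sb_eval, (re_im _).1, (re_im _).2]
    exact hA s hs
  obtain ⟨s0, hs0m, hs0⟩ := arc_analytic hOv (sb_ne hA0) hαβ hsA
  obtain ⟨F, H, r, v, hr, hXd, hYd, hXY, hv, hG⟩ := start hOv hK hs0
  have hopen : IsOpen (Metric.ball (s0 : ℂ) r) := Metric.isOpen_ball
  -- the algebraic relation on the ball
  have hAXY : ∀ t ∈ Metric.ball (s0 : ℂ) r, A.evalEval (F t) (H t) = 0 := by
    have hsr : (s0 : ℂ) ∈ Metric.ball (s0 : ℂ) r := Metric.mem_ball_self hr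
    have hballs : ∀ᶠ t : ℝ in 𝓝 s0, (t : ℂ) ∈ Metric.ball (s0 : ℂ) r :=
      Complex.continuous_ofReal.continuousAt.preimage_mem_nhds (hopen.mem_nhds hsr)
    have h1 := (AAY_diff A hXd hYd).analyticOnNhd hopen
    have h2 := h1.eqOn_zero_of_preconnected_of_frequently_eq_zero
      (convex_ball (s0 : ℂ) r).isPreconnected hsr (AAY_freq (by
        filter_upwards [hballs, Ioo_mem_nhds hs0m.1 hs0m.2] with t ht ht2
        rw [(hXY t ht).1, (hXY t ht).2]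
        exact hA t ht2))
    exact fun t ht => h2 ht
  have hXa : AnalyticAt ℂ F v := hXd.analyticAt (hopen.mem_nhds hv)
  have hYa : AnalyticAt ℂ H v := hYd.analyticAt (hopen.mem_nhds hv)
  obtain ⟨g1, g2, g3⟩ := GX_reg hG
  have hWrc : ContinuousAt (Wr F H) v := by
    have c1 := hXa.deriv.continuousAt
    have c2 := hYa.deriv.continuousAt
    have c3 := hXa.deriv.deriv.continuousAt
    have c4 := hYa.deriv.deriv.continuousAt
    unfold Wr
    fun_prop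
  have hev0 : ∀ᶠ t in 𝓝 (v : ℂ), t ∈ Metric.ball (s0 : ℂ) r := hopen.mem_nhds hv
  obtain ⟨r1, hr1, hb1⟩ := Metric.eventually_nhds_iff_ball.1
    (hev0.and
      ((hXa.deriv.continuousAt.eventually_ne g1).and
        ((hYa.deriv.continuousAt.eventually_ne g2).and (hWrc.eventually_ne g3))))
  have hsub : Metric.ball (v : ℂ) r1 ⊆ Metric.ball (s0 : ℂ) r := fun t ht => (hb1 t ht).1
  have hreg : ∀ t ∈ Metric.ball (v : ℂ) r1, deriv F t ≠ 0 ∧ deriv H t ≠ 0 ∧ Wr F H t ≠ 0 :=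
    fun t ht => (hb1 t ht).2
  have hXd1 := hXd.mono hsub
  have hYd1 := hYd.mono hsub
  have hopen1 : IsOpen (Metric.ball (v : ℂ) r1) := Metric.isOpen_ball
  have hvr : (v : ℂ) ∈ Metric.ball (v : ℂ) r1 := Metric.mem_ball_self hr1
  obtain ⟨A', B, hAC, hA', hAA⟩ := abx A hA0 F H v r1 hr1 hXd1 hYd1 fun t ht =>
    ⟨(hreg t ht).1, (hreg t ht).2.1, (hreg t ht).2.2, hAXY t (hsub ht)⟩
  have hS : SlowC A' B := slowC hNF hAA
  -- a real point with `F t0 ∉ B`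
  have hev : ∀ᶠ z in 𝓝[≠] (v : ℂ), F z ∉ B := by
    have h1 : ∀ b ∈ B, ∀ᶠ z in 𝓝[≠] (v : ℂ), F z ≠ b := by
      intro b _
      rcases hXa.eventually_eq_or_eventually_ne (analyticAt_const (v := b)) with h | h
      · exfalso
        have h2 : F =ᶠ[𝓝 (v : ℂ)] fun _ => b := h
        have h3 := h2.deriv_eq
        rw [deriv_const] at h3
        exact (hreg v hvr).1 h3
      · exact h
    have h2 := (Filter.eventually_all_finite hAC.fin).2 h1
    filter_upwards [h2] with z hz hzB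
    exact hz _ hzB rfl
  have hballR : ∀ᶠ t : ℝ in 𝓝 v, (t : ℂ) ∈ Metric.ball (v : ℂ) r1 :=
    Complex.continuous_ofReal.continuousAt.preimage_mem_nhds (hopen1.mem_nhds hvr)
  obtain ⟨t0, ht0B, ht0r⟩ : ∃ t0 : ℝ, F t0 ∉ B ∧ (t0 : ℂ) ∈ Metric.ball (v : ℂ) r1 :=
    (((AAY_tend v).eventually hev).and (hballR.filter_mono nhdsWithin_le_nhds)).exists
  have hG0 : GX F H t0 := GX_seg hopen1 hXd1 hYd1 hreg
    ((convex_ball (v : ℂ) r1).segment_subset hvr ht0r) hG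
  have hXt : AnalyticAt ℂ F t0 := hXd1.analyticAt (hopen1.mem_nhds ht0r)
  have hYt : AnalyticAt ℂ H t0 := hYd1.analyticAt (hopen1.mem_nhds ht0r)
  -- the local sheet
  obtain ⟨⟨g, hg⟩, huni⟩ := tALO A' B hAC (F t0) ht0B (H t0) (hA' t0 ht0r)
  have hgH : ∀ᶠ t in 𝓝 (t0 : ℂ), H t = g (F t) := by
    have h1 : Tendsto (fun t => (F t, H t)) (𝓝 (t0 : ℂ)) (𝓝 (F t0, H t0)) :=
      (hXt.continuousAt.prodMk hYt.continuousAt).tendsto
    filter_upwards [h1.eventually (huni g hg), hopen1.mem_nhds ht0r] with t h2 h3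
    exact h2 (hA' t h3)
  have hG1 : GX F (fun s => g (F s)) t0 := GX_congr hG0 (EventuallyEq.refl _ _) hgH
  have hAG : AGX A' (F t0) (H t0) :=
    ⟨g, hg, (@GX_comp (fun x => x) g F t0 hXt (hreg t0 ht0r).1 analyticAt_id hg.1).1 hG1⟩
  obtain ⟨m0, hm0⟩ := agl hAC hS (F t0) ht0B (H t0) g hAG hg
  have hflex := hAC.flex (F t0) ht0B g hg.1 hg.2.2
  have hga : ∀ᶠ z in 𝓝 (F t0), AnalyticAt ℂ g z := hg.1.eventually_analyticAt
  have hWrne : ∀ᶠ z in 𝓝 (F t0), Wr (fun x => x) g z ≠ 0 := by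
    have h1 : ContinuousAt (deriv (deriv g)) (F t0) := hg.1.deriv.deriv.continuousAt
    filter_upwards [h1.eventually_ne hflex.2] with z hz
    rw [AAY_Wr]
    exact hz
  obtain ⟨r', hr', hball'⟩ := Metric.eventually_nhds_iff_ball.1 (hga.and (hWrne.and hm0))
  obtain ⟨q0, q1, q2, q3, q4, q5, hq, hqe⟩ := tCQU (fun x => x) g (F t0) m0 r' hr'
    differentiableOn_id (fun z hz => (hball' z hz).1.differentiableAt.differentiableWithinAt)
    fun z hz => (hball' z hz).2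
  -- back to the oval
  have hreal : ∀ᶠ t : ℝ in 𝓝 t0, q0 * ((γ t).re : ℂ) ^ 2 + q1 * (γ t).re * (γ t).im +
      q2 * ((γ t).im : ℂ) ^ 2 + q3 * (γ t).re + q4 * (γ t).im + q5 = 0 := by
    have h1 : ∀ᶠ t : ℝ in 𝓝 t0, (t : ℂ) ∈ Metric.ball (v : ℂ) r1 :=
      Complex.continuous_ofReal.continuousAt.preimage_mem_nhds (hopen1.mem_nhds ht0r)
    have hback : ∀ᶠ t in 𝓝 (t0 : ℂ), q0 * F t ^ 2 + q1 * F t * H t + q2 * H t ^ 2 + q3 * F t +
        q4 * H t + q5 = 0 := by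
      filter_upwards [hXt.continuousAt.eventually hqe, hgH] with t h1 h2
      rw [h2]
      exact h1
    filter_upwards [Complex.continuous_ofReal.continuousAt.eventually hback, h1] with t h2 h3
    rw [(hXY t (hsub h3)).1, (hXY t (hsub h3)).2] at h2
    exact h2
  exact ⟨t0, q0, q1, q2, q3, q4, q5, hq, hreal⟩

/-- Outer billiards about ovals with an algebraic arc without fast asymptotes. -/
theorem outer_main {γ : ℝ → ℂ} {ρ : ℝ → ℝ} (hOv : IsOval γ ρ) {K : ℝ → ℝ → ℝ}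
    {U : Set (ℝ × ℝ)} (hK : OInt γ K U) {A : ℂ[X][Y]} (hA0 : A ≠ 0) {α β : ℝ} (hαβ : α < β)
    (hA : ∀ s ∈ Ioo α β, A.evalEval ((γ s).re : ℂ) ((γ s).im : ℂ) = 0) (hNF : NoFast A) :
    ∃ (c : ℂ) (a b d : ℝ), 0 < a ∧ 0 < a * d - b ^ 2 ∧
      Set.range γ = {x : ℂ | a * (x.re - c.re) ^ 2 + 2 * b * (x.re - c.re) * (x.im - c.im)
        + d * (x.im - c.im) ^ 2 = 1} ∧
      ∃ η > 0, ∀ l : ℝ, 1 ≤ l → l < 1 + η → ∃ κ : ℝ, ∀ x y : ℝ,
        a * (x - c.re) ^ 2 + 2 * b * (x - c.re) * (y - c.im) + d * (y - c.im) ^ 2 = l →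
          (x, y) ∈ U ∧ K x y = κ := by
  obtain ⟨t0, q0, q1, q2, q3, q4, q5, hq, h⟩ := outer_arc hOv hK hA0 hαβ hA hNF
  obtain ⟨q, hqn, hqQ⟩ := realify (x := fun t => (γ t).re) (y := fun t => (γ t).im) hq h
  obtain ⟨c, a, b, d, ha, hdet, hr⟩ := outer_conic hOv hK hqn hqQ
  exact ⟨c, a, b, d, ha, hdet, hr, Pool.Agent.W743.BE.ellipse_leaves hOv hK ha hdet hr⟩

end Pool.Agent.V5helper83.AR
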